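import Pool.Agent.H927.QP.Tgt

/-!
# Assembly
-/

set_option autoImplicit false

open scoped TensorProduct commutatorElement

noncomputable section

namespace Pool.Agent.H927.QP

open Pool.Agent.H297.QL (Gr gam cl gbr comp hc LV inc lift cl_add Lk idl kerI lift_inc exists_cl
  cl_zero' brE_comp lie_def)

attribute [local instance 100] LieRing.ofAssociativeRing

/-! ### The generators in the congruence subgroup -/

/-- the first order operator on `V` -/
def der (δ : Module.End K (M K)) : Module.End K V where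
  toFun v := (0, δ v.2.1, TensorProduct.map δ LinearMap.id v.2.2 +
    TensorProduct.map LinearMap.id δ v.2.2 + (2 : K) • TensorProduct.map δ δ v.2.2)
  map_add' v w := by
    change ((0 : K), δ (v.2.1 + w.2.1), TensorProduct.map δ LinearMap.id (v.2.2 + w.2.2) +
      TensorProduct.map LinearMap.id δ (v.2.2 + w.2.2) +
        (2 : K) • TensorProduct.map δ δ (v.2.2 + w.2.2)) =
      (0 + 0, δ v.2.1 + δ w.2.1, (TensorProduct.map δ LinearMap.id v.2.2 +
    TensorProduct.map LinearMap.id δ v.2.2 + (2 : K) • TensorProduct.map δ δ v.2.2) +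
      (TensorProduct.map δ LinearMap.id w.2.2 +
    TensorProduct.map LinearMap.id δ w.2.2 + (2 : K) • TensorProduct.map δ δ w.2.2))
    rw [map_add, map_add, map_add, map_add, smul_add, add_zero]
    congr 2
    abel
  map_smul' r v := by
    change ((0 : K), δ (r • v.2.1), TensorProduct.map δ LinearMap.id (r • v.2.2) +
      TensorProduct.map LinearMap.id δ (r • v.2.2) +
        (2 : K) • TensorProduct.map δ δ (r • v.2.2)) =
      (r • 0, r • δ v.2.1, r • (TensorProduct.map δ LinearMap.id v.2.2 +
    TensorProduct.map LinearMap.id δ v.2.2 + (2 : K) • TensorProduct.map δ δ v.2.2))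
    rw [map_smul, map_smul, map_smul, map_smul, smul_zero, smul_add, smul_add,
      smul_comm (2 : K) r]

lemma map_der (δ : Module.End K (M K)) (τ : T K) :
    TensorProduct.map (1 + (2 : K) • δ) (1 + (2 : K) • δ) τ = τ + (2 : K) •
      (TensorProduct.map δ LinearMap.id τ + TensorProduct.map LinearMap.id δ τ +
        (2 : K) • TensorProduct.map δ δ τ) := by
  induction τ using TensorProduct.induction_on with
  | zero => simp
  | tmul m m' =>
    simp only [TensorProduct.map_tmul, LinearMap.add_apply, LinearMap.smul_apply,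
      Module.End.one_apply, LinearMap.id_apply, TensorProduct.add_tmul, TensorProduct.tmul_add,
      TensorProduct.tmul_smul, ← TensorProduct.smul_tmul', smul_add, smul_smul]
    module
  | add τ τ' h1 h2 =>
    rw [map_add, h1, h2]
    simp only [map_add]
    module

lemma rho_der (δ : Module.End K (M K)) : rho (1 + (2 : K) • δ) = 1 + (2 : K) • der δ := by
  refine LinearMap.ext fun v => ?_
  change (v.1, v.2.1 + (2 : K) • δ v.2.1,
    TensorProduct.map (1 + (2 : K) • δ) (1 + (2 : K) • δ) v.2.2) =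
    (v.1 + (2 : K) • (0 : K), v.2.1 + (2 : K) • δ v.2.1, v.2.2 + (2 : K) •
      (TensorProduct.map δ LinearMap.id v.2.2 + TensorProduct.map LinearMap.id δ v.2.2 +
        (2 : K) • TensorProduct.map δ δ v.2.2))
  rw [map_der, smul_zero, add_zero]

lemma red_der (hi : S_inv) {k l : Fin 3} (hkl : k ≠ l) (r : Module.End K (M K)) (τ : T K) :
    red (fT K (TensorProduct.map (D K k l + (2 : K) • r) LinearMap.id τ +
    TensorProduct.map LinearMap.id (D K k l + (2 : K) • r) τ +
      (2 : K) • TensorProduct.map (D K k l + (2 : K) • r) (D K k l + (2 : K) • r) τ)) = 0 := by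
  obtain ⟨c, hc⟩ := hi k l hkl τ
  have h2 : TensorProduct.map (D K k l + (2 : K) • r) LinearMap.id τ +
    TensorProduct.map LinearMap.id (D K k l + (2 : K) • r) τ =
      D2 K k l τ + (2 : K) • (TensorProduct.map r LinearMap.id τ +
        TensorProduct.map LinearMap.id r τ) := by
    unfold D2
    rw [TensorProduct.map_add_left, TensorProduct.map_add_right, TensorProduct.map_smul_left,
      TensorProduct.map_smul_right]
    simp only [LinearMap.add_apply, LinearMap.smul_apply]
    module
  have h3 : fT K (TensorProduct.map (D K k l + (2 : K) • r) LinearMap.id τ +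
    TensorProduct.map LinearMap.id (D K k l + (2 : K) • r) τ +
      (2 : K) • TensorProduct.map (D K k l + (2 : K) • r) (D K k l + (2 : K) • r) τ) =
      2 * (c + fT K (TensorProduct.map r LinearMap.id τ + TensorProduct.map LinearMap.id r τ) +
        fT K (TensorProduct.map (D K k l + (2 : K) • r) (D K k l + (2 : K) • r) τ)) := by
    rw [h2, map_add, map_add, map_smul, map_smul, hc, smul_eq_mul, smul_eq_mul, ← mul_add,
      ← mul_add]
  rw [h3, red_two]

lemma cong_der (hi : S_inv) {k l : Fin 3} (hkl : k ≠ l) (r : Module.End K (M K)) :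
    cong qq (der (D K k l + (2 : K) • r)) (cc k l) := by
  intro v
  refine ⟨((0 : K), r v.2.1, (0 : ZMod 2)), ?_⟩
  have h1 := red_der hi hkl r v.2.2
  change ((0 : K), D K k l v.2.1 + (2 : K) • r v.2.1,
    red (fT K (TensorProduct.map (D K k l + (2 : K) • r) LinearMap.id v.2.2 +
    TensorProduct.map LinearMap.id (D K k l + (2 : K) • r) v.2.2 +
      (2 : K) • TensorProduct.map (D K k l + (2 : K) • r) (D K k l + (2 : K) • r) v.2.2))) =
    ((0 : K) + 2 • (0 : K), D K k l v.2.1 + 2 • r v.2.1, (0 : ZMod 2) + 2 • (0 : ZMod 2))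
  rw [h1, smul_zero, smul_zero, add_zero, add_zero, two_smul, two_nsmul]

lemma cong_lm (m : M K) : cong qq (lm m) (zt m) := by
  intro v
  refine ⟨0, ?_⟩
  rw [smul_zero, add_zero]
  rfl

lemma em_two (m : M K) : ((em ((2 : K) • m) : (Module.End K V)ˣ) : Module.End K V) =
    1 + (2 : K) • lm m := by
  change 1 + lm ((2 : K) • m) = _
  rw [lm_smul]

lemma om_four : ((2 : K) • z K 0) ⊗ₜ[K] ((2 : K) • z K 1) -
    ((2 : K) • z K 1) ⊗ₜ[K] ((2 : K) • z K 0) = (4 : K) • om K := by
  unfold om
  rw [TensorProduct.tmul_smul, TensorProduct.tmul_smul, ← TensorProduct.smul_tmul',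
    ← TensorProduct.smul_tmul', smul_smul, smul_smul, smul_sub_T]
  norm_num

/-! ### Indices -/

/-- the first three indices -/
def i3 {n : ℕ} (hn : 4 ≤ n) (k : Fin 3) : Fin n := Fin.castLE hn k.castSucc

/-- the fourth index -/
def i4 {n : ℕ} (hn : 4 ≤ n) : Fin n := Fin.castLE hn (Fin.last 3)

lemma i3_ne {n : ℕ} (hn : 4 ≤ n) {k l : Fin 3} (h : k ≠ l) : i3 hn k ≠ i3 hn l := by
  intro e
  apply h
  have e1 := congrArg Fin.val e
  exact Fin.ext e1

lemma i34_ne {n : ℕ} (hn : 4 ≤ n) (k : Fin 3) : i3 hn k ≠ i4 hn := by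
  intro e
  have e1 : k.val = 3 := congrArg Fin.val e
  omega

section main

variable {n : ℕ} (hn : 4 ≤ n) (φ : Gr (PSig n) 1 →+ AddMonoid.End V')
  (th : Fin 3 → Fin 3 → (Module.End K (M K))ˣ)

/-- a generator, as an element of the product -/
def sQ (k l : Fin 3) : (Module.End K V)ˣ × PSig n :=
  if h : k ≠ l then (ru (th k l), chi (i3 hn k) (i3 hn l) (i3_ne hn h)) else 1

/-- a generator, as an element of the product -/
def zQ (i : Fin 2) : (Module.End K V)ˣ × PSig n :=
  (em ((2 : K) • z K i.castSucc), chi (i3 hn i.castSucc) (i4 hn) (i34_ne hn _))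

variable {th φ}

lemma sQ_ne {k l : Fin 3} (h : k ≠ l) :
    sQ hn th k l = (ru (th k l), chi (i3 hn k) (i3 hn l) (i3_ne hn h)) := dif_pos h

lemma sQ_mem (hexp : S_exp) (hinv : S_inv)
    (hth : ∀ k l, k ≠ l → ((th k l : (Module.End K (M K))ˣ) : Module.End K (M K)) =
      theta k l (y l))
    (hφ : ∀ (k l : Fin 3) (h : k ≠ l),
      φ (cl 1 (chi (i3 hn k) (i3 hn l) (i3_ne hn h)) (Subgroup.mem_top _)) = cc k l)
    (k l : Fin 3) : sQ hn th k l ∈ PP φ := by
  by_cases h : k = l
  · unfold sQ
    rw [dif_neg (by simpa using h)]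
    exact (PP φ).one_mem
  · rw [sQ_ne hn h]
    obtain ⟨r, hr⟩ := exp_lin hexp h
    refine ⟨der (D K k l + (2 : K) • (E K k l + (2 : K) • r)), ?_, ?_⟩
    · change rho (th k l : Module.End K (M K)) = _
      rw [← rho_der, hth k l h, hr]
      congr 1
      module
    · change cong qq _ (φ (cl 1 (chi (i3 hn k) (i3 hn l) (i3_ne hn h)) _))
      rw [hφ k l h]
      exact cong_der hinv h _

lemma zQ_mem (hφ : ∀ k : Fin 3,
      φ (cl 1 (chi (i3 hn k) (i4 hn) (i34_ne hn k)) (Subgroup.mem_top _)) = zt (z K k))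
    (i : Fin 2) : zQ hn i ∈ PP φ := by
  refine ⟨lm (z K i.castSucc), em_two _, ?_⟩
  change cong qq _ (φ (cl 1 (chi (i3 hn i.castSucc) (i4 hn) (i34_ne hn i.castSucc)) _))
  rw [hφ]
  exact cong_lm _

end main

end Pool.Agent.H927.QP
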