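import Pool.Agent.H927.QP.Asm

/-!
# Assembly, second part: the contradiction
-/

set_option autoImplicit false

open scoped TensorProduct commutatorElement

noncomputable section

namespace Pool.Agent.H927.QP

open Pool.Agent.H297.QL (Gr gam cl gbr comp hc LV inc lift cl_add Lk idl kerI lift_inc exists_cl
  cl_zero' brE_comp lie_def inc_add IsQuadratic Quo toQ)

attribute [local instance 100] LieRing.ofAssociativeRing

section main

variable {n : ℕ} (hn : 4 ≤ n) {φ : Gr (PSig n) 1 →+ AddMonoid.End V'}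
  {th : Fin 3 → Fin 3 → (Module.End K (M K))ˣ}

/-- the element of the congruence subgroup -/
def sP (hs : ∀ k l, sQ hn th k l ∈ PP φ) (k l : Fin 3) : PP φ := ⟨sQ hn th k l, hs k l⟩

/-- the element of the congruence subgroup -/
def zP (hz : ∀ i, zQ hn i ∈ PP φ) (i : Fin 2) : PP φ := ⟨zQ hn i, hz i⟩

/-- the elements `(1 + τ, 1)` -/
def NN (φ : Gr (PSig n) 1 →+ AddMonoid.End V') : Subgroup (PP φ) where
  carrier := {p | (p : (Module.End K V)ˣ × PSig n).2 = 1 ∧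
    ∃ τ, (p : (Module.End K V)ˣ × PSig n).1 = ut τ}
  one_mem' := ⟨rfl, 0, ut_zero.symm⟩
  mul_mem' := by
    rintro p p' ⟨h1, τ, h2⟩ ⟨h1', τ', h2'⟩
    refine ⟨?_, τ + τ', ?_⟩
    · change (p : (Module.End K V)ˣ × PSig n).2 * (p' : (Module.End K V)ˣ × PSig n).2 = 1
      rw [h1, h1', one_mul]
    · change (p : (Module.End K V)ˣ × PSig n).1 * (p' : (Module.End K V)ˣ × PSig n).1 = _
      rw [h2, h2', ut_add]
  inv_mem' := by
    rintro p ⟨h1, τ, h2⟩
    refine ⟨?_, -τ, ?_⟩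
    · change (p : (Module.End K V)ˣ × PSig n).2⁻¹ = 1
      rw [h1, inv_one]
    · change (p : (Module.End K V)ˣ × PSig n).1⁻¹ = _
      rw [h2, ut_neg]

lemma P_ext {p p' : PP φ} (h1 : (p : (Module.End K V)ˣ × PSig n).1 =
    (p' : (Module.End K V)ˣ × PSig n).1) (h2 : (p : (Module.End K V)ˣ × PSig n).2 =
    (p' : (Module.End K V)ˣ × PSig n).2) : p = p' := Subtype.ext (Prod.ext h1 h2)

lemma fst_comm (p p' : PP φ) : (⁅p, p'⁆ : PP φ).1.1 = ⁅p.1.1, p'.1.1⁆ := rfl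

lemma snd_comm (p p' : PP φ) : (⁅p, p'⁆ : PP φ).1.2 = ⁅p.1.2, p'.1.2⁆ := rfl

lemma ru_comm {θ θ' : (Module.End K (M K))ˣ} (h : Commute θ θ') : Commute (ru θ) (ru θ') :=
  h.map ru

/-- the product of commutators lies in `Γ_9(P)` -/
theorem W0_mem (hgrp : S_grp)
    (hth1 : ∀ k m j : Fin 3, k ≠ m → k ≠ j → m ≠ j → Commute (th k j) (th m j))
    (hth2 : ∀ i j k : Fin 3, i ≠ j → i ≠ k → j ≠ k → Commute (th i j * th k j) (th i k))
    (hth3 : ∀ k l m : Fin 3, k ≠ l → k ≠ m → l ≠ m →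
      ((th k l : (Module.End K (M K))ˣ) : Module.End K (M K)) (z K m) = z K m)
    (hz0 : z K 0 + z K 1 + z K 2 = 0)
    (hs : ∀ k l, sQ hn th k l ∈ PP φ) (hz : ∀ i, zQ hn i ∈ PP φ) :
    W0 (fun l => sP hn hs (sk l) l) ⁅zP hn hz 0, zP hn hz 1⁆ ∈ gam (PP φ) 9 := by
  have e1 : ∀ {k l : Fin 3}, k ≠ l → (sP hn hs k l).1.1 = ru (th k l) := by
    intro k l h
    change (sQ hn th k l).1 = _
    rw [sQ_ne hn h]
  have e2 : ∀ {k l : Fin 3} (h : k ≠ l),
      (sP hn hs k l).1.2 = chi (i3 hn k) (i3 hn l) (i3_ne hn h) := by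
    intro k l h
    change (sQ hn th k l).2 = _
    rw [sQ_ne hn h]
  have hlin : ∀ (k l : Fin 3), k ≠ l → k ≠ 2 → l ≠ 2 →
      ((th k l : (Module.End K (M K))ˣ) : Module.End K (M K)) ((2 : K) • z K 0) +
      ((th k l : (Module.End K (M K))ˣ) : Module.End K (M K)) ((2 : K) • z K 1) =
        (2 : K) • z K 0 + (2 : K) • z K 1 := by
    intro k l h1 h2 h3
    have h4 := hth3 k l 2 h1 h2 h3
    have h5 : z K 0 + z K 1 = -z K 2 := eq_neg_of_add_eq_zero_left hz0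
    rw [← map_add, ← smul_add, h5, map_smul, map_neg, h4]
  refine hgrp (PP φ) (sP hn hs) (zP hn hz) (NN φ) ?_ ?_ ?_ ?_ ?_ ?_ ?_
  · intro k m j h1 h2 h3
    refine P_ext ?_ ?_
    · rw [fst_comm, e1 h2, e1 h3]
      exact commutatorElement_eq_one_iff_commute.2 (ru_comm (hth1 k m j h1 h2 h3))
    · rw [snd_comm, e2 h2, e2 h3]
      exact commutatorElement_eq_one_iff_mul_comm.2
        (chi_rel1 (i3_ne hn h2) (i3_ne hn h1) (i3_ne hn h3))
  · intro i j k h1 h2 h3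
    refine P_ext ?_ ?_
    · change ⁅(sP hn hs i j).1.1 * (sP hn hs k j).1.1, (sP hn hs i k).1.1⁆ = 1
      rw [e1 h1, e1 h3.symm, e1 h2, ← map_mul]
      exact commutatorElement_eq_one_iff_commute.2 (ru_comm (hth2 i j k h1 h2 h3))
    · change ⁅(sP hn hs i j).1.2 * (sP hn hs k j).1.2, (sP hn hs i k).1.2⁆ = 1
      rw [e2 h1, e2 h3.symm, e2 h2]
      exact commutatorElement_eq_one_iff_mul_comm.2
        (chi_rel3 (i3_ne hn h1) (i3_ne hn h2) (i3_ne hn h3.symm))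
  · intro k l m h1 h2 h3
    refine P_ext ?_ ?_
    · rw [fst_comm, e1 h1]
      change ⁅ru (th k l), em ((2 : K) • z K m.castSucc)⁆ = 1
      apply comm_ru_em
      rw [map_smul, hth3 k l _ h1 h2 h3]
    · rw [snd_comm, e2 h1]
      change ⁅chi (i3 hn k) (i3 hn l) (i3_ne hn h1),
        chi (i3 hn m.castSucc) (i4 hn) (i34_ne hn _)⁆ = 1
      exact commutatorElement_eq_one_iff_mul_comm.2
        (chi_rel2 (i3_ne hn h1) (i3_ne hn h2) (i34_ne hn k) (i3_ne hn h3) (i34_ne hn _))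
  · refine ⟨?_, ?_⟩
    · rw [snd_comm]
      change ⁅(sP hn hs 0 1).1.2, chi (i3 hn 0) (i4 hn) (i34_ne hn 0) *
        chi (i3 hn 1) (i4 hn) (i34_ne hn 1)⁆ = 1
      rw [e2 (by decide : (0 : Fin 3) ≠ 1)]
      exact commutatorElement_eq_one_iff_mul_comm.2
        (chi_rel3 (i34_ne hn 0) (i3_ne hn (by decide)) (i34_ne hn 1)).symm
    · rw [fst_comm]
      change ∃ τ, ⁅(sP hn hs 0 1).1.1, em ((2 : K) • z K 0) * em ((2 : K) • z K 1)⁆ = ut τ
      rw [e1 (by decide : (0 : Fin 3) ≠ 1)]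
      exact comm_ru_em2 _ _ _ (hlin 0 1 (by decide) (by decide) (by decide))
  · refine ⟨?_, ?_⟩
    · rw [snd_comm]
      change ⁅(sP hn hs 1 0).1.2, chi (i3 hn 0) (i4 hn) (i34_ne hn 0) *
        chi (i3 hn 1) (i4 hn) (i34_ne hn 1)⁆ = 1
      rw [e2 (by decide : (1 : Fin 3) ≠ 0),
        chi_rel1 (i34_ne hn 0) (i3_ne hn (by decide)) (i34_ne hn 1)]
      exact commutatorElement_eq_one_iff_mul_comm.2
        (chi_rel3 (i34_ne hn 1) (i3_ne hn (by decide)) (i34_ne hn 0)).symm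
    · rw [fst_comm]
      change ∃ τ, ⁅(sP hn hs 1 0).1.1, em ((2 : K) • z K 0) * em ((2 : K) • z K 1)⁆ = ut τ
      rw [e1 (by decide : (1 : Fin 3) ≠ 0)]
      exact comm_ru_em2 _ _ _ (hlin 1 0 (by decide) (by decide) (by decide))
  · rintro k l h a ⟨h1, τ, h2⟩
    refine ⟨?_, ?_⟩
    · rw [snd_comm, h1, commutatorElement_one_right]
    · rw [fst_comm, h2, e1 h, comm_ru_ut]
      exact ⟨_, rfl⟩
  · rintro m a ⟨h1, τ, h2⟩
    refine P_ext ?_ ?_
    · rw [fst_comm, h2]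
      exact comm_em_ut _ _
    · rw [snd_comm, h1, commutatorElement_one_right]
      rfl

/-- the first component of the product of commutators -/
theorem W0_fst (hs : ∀ k l, sQ hn th k l ∈ PP φ) (hz : ∀ i, zQ hn i ∈ PP φ)
    (hth : ∀ k l, k ≠ l → ((th k l : (Module.End K (M K))ˣ) : Module.End K (M K)) =
      theta k l (y l)) :
    (W0 (fun l => sP hn hs (sk l) l) ⁅zP hn hz 0, zP hn hz 1⁆).1.1 =
      ut ((u0.map fun p => p.1 • tw th0 ((4 : K) • om K) p.2).sum) := by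
  have h := map_W0 ((MonoidHom.fst (Module.End K V)ˣ (PSig n)).comp (PP φ).subtype)
    (fun l => sP hn hs (sk l) l) ⁅zP hn hz 0, zP hn hz 1⁆
  have h1 : (fun l => ((MonoidHom.fst (Module.End K V)ˣ (PSig n)).comp (PP φ).subtype)
      (sP hn hs (sk l) l)) = fun l => ru (th (sk l) l) := by
    funext l
    change (sQ hn th (sk l) l).1 = _
    rw [sQ_ne hn (sk_ne l)]
  have h2 : ((MonoidHom.fst (Module.End K V)ˣ (PSig n)).comp (PP φ).subtype)
      ⁅zP hn hz 0, zP hn hz 1⁆ = ut ((4 : K) • om K) := by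
    change ⁅em ((2 : K) • z K 0), em ((2 : K) • z K 1)⁆ = _
    rw [comm_em, om_four]
  rw [h1, h2, W0_ut] at h
  have h3 : (fun l => ((th (sk l) l : (Module.End K (M K))ˣ) : Module.End K (M K))) = th0 := by
    funext l
    rw [hth _ _ (sk_ne l)]
    rfl
  rw [h3] at h
  exact h

/-- the second component of the product of commutators -/
theorem W0_snd (hs : ∀ k l, sQ hn th k l ∈ PP φ) (hz : ∀ i, zQ hn i ∈ PP φ) :
    (W0 (fun l => sP hn hs (sk l) l) ⁅zP hn hz 0, zP hn hz 1⁆).1.2 = 1 := by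
  have h := map_W0 ((MonoidHom.snd (Module.End K V)ˣ (PSig n)).comp (PP φ).subtype)
    (fun l => sP hn hs (sk l) l) ⁅zP hn hz 0, zP hn hz 1⁆
  have h2 : ((MonoidHom.snd (Module.End K V)ˣ (PSig n)).comp (PP φ).subtype)
      ⁅zP hn hz 0, zP hn hz 1⁆ = 1 := by
    change ⁅chi (i3 hn 0) (i4 hn) (i34_ne hn 0), chi (i3 hn 1) (i4 hn) (i34_ne hn 1)⁆ = 1
    exact commutatorElement_eq_one_iff_mul_comm.2
      (chi_rel1 (i34_ne hn 0) (i3_ne hn (by decide)) (i34_ne hn 1))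
  rw [h2, W0_one] at h
  exact h

end main

lemma red_zero (x : K) (h : red x = 0) : 512 * x = 0 := by
  revert x
  decide +kernel

lemma mem_Lk_one {V : Type} [AddCommGroup V] {x : LV V} (hx : x ∈ Lk V 1) : ∃ v, x = inc v := by
  have hx' : x ∈ AddSubgroup.closure (Set.range (inc : V → LV V)) := hx
  clear hx
  induction hx' using AddSubgroup.closure_induction with
  | mem x h =>
    obtain ⟨v, rfl⟩ := h
    exact ⟨v, rfl⟩
  | zero =>
    refine ⟨0, ?_⟩
    have h := inc_add (0 : V) 0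
    rw [add_zero] at h
    exact (left_eq_add.mp h).symm
  | add x y _ _ h1 h2 =>
    obtain ⟨v, rfl⟩ := h1
    obtain ⟨w, rfl⟩ := h2
    exact ⟨v + w, (inc_add v w).symm⟩
  | neg x _ h1 =>
    obtain ⟨v, rfl⟩ := h1
    exact ⟨-v, (map_neg (AddMonoidHom.mk' (inc : V → LV V) inc_add) v).symm⟩

/-- the vector `(1, 0, 0)` -/
def v0 : V := ((1 : K), (0 : M K), (0 : T K))

lemma third_comp (τ : T K) (a : Module.End K V)
    (h : ((ut τ : (Module.End K V)ˣ) : Module.End K V) = 1 + ((2 : K) ^ 9) • a) :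
    τ = ((2 : K) ^ 9) • (a v0).2.2 := by
  have h13 : ((ut τ : (Module.End K V)ˣ) : Module.End K V) v0 = v0 + ((2 : K) ^ 9) • a v0 := by
    rw [h]
    rfl
  have h12 : ((ut τ : (Module.End K V)ˣ) : Module.End K V) v0 =
    (((1 : K), (0 : M K), τ) : K × M K × T K) := ut_one_vec _
  rw [h12] at h13
  have h14 : τ = (0 : T K) + ((2 : K) ^ 9) • (a v0).2.2 := congrArg (fun v : V => v.2.2) h13
  rwa [zero_add] at h14

/-- **a relation of degree nine which is not a consequence of quadratic ones** -/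
theorem key {n : ℕ} (hn : 4 ≤ n) (hsyz : S_syz) (hnum : S_num) (hinv : S_inv) (hD : S_Drel)
    (hTh : S_theta) (hexp : S_exp) (hgrp : S_grp) (hphi : S_phi) (hPhi : S_Phi)
    (hclaim : S_claim)
    (h : LV (Gr (PSig n) 1) →ₗ⁅ℤ⁆ Pool.Agent.H297.QL.E (PSig n))
    (t : Gr (PSig n) 1 →+ Gr (PSig n) 1)
    (ht : Function.Surjective t) (hh : ∀ v, h (inc v) = comp 1 (t v))
    (S : Set (LV (Gr (PSig n) 1))) (hS : S ⊆ Lk (Gr (PSig n) 1) 2) (hS' : ∀ s ∈ S, h s = 0) :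
    ∃ x, h x = 0 ∧ x ∉ idl S := by
  obtain ⟨Φ, q1, q2, q3, q4, q5⟩ := hPhi n hn (AddMonoid.End V') cc (fun k => zt (z K k))
    (fun k m j h1 h2 h3 => cc_rel1 hD k m j h1 h2 h3)
    (fun i j k h1 h2 h3 => cc_rel2 hD i j k h1 h2 h3)
    (fun k l m h1 h2 h3 => cc_rel3 hD hinv k l m h1 h2 h3) (cc_rel4 hD) (cc_rel5 hD)
  obtain ⟨phi, phi2, hlie, hval⟩ := hphi n (AddMonoid.End V') Φ q1 q2 q3
  obtain ⟨th, t1, t2, t3, t4⟩ := hTh
  have v1 : ∀ (k l : Fin 3) (h : k ≠ l),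
      phi (cl 1 (chi (i3 hn k) (i3 hn l) (i3_ne hn h)) (Subgroup.mem_top _)) = cc k l := by
    intro k l hkl
    rw [hval]
    exact q4 k l hkl
  have v2 : ∀ k : Fin 3,
      phi (cl 1 (chi (i3 hn k) (i4 hn) (i34_ne hn k)) (Subgroup.mem_top _)) = zt (z K k) := by
    intro k
    rw [hval]
    exact q5 k
  have hs : ∀ k l, sQ hn th k l ∈ PP phi := sQ_mem hn hexp hinv t1 v1
  have hz : ∀ i, zQ hn i ∈ PP phi := zQ_mem hn v2
  have hW := W0_mem hn hgrp t2 t3 t4 hD.2.2.2.1 hs hz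
  obtain ⟨x, a, hp, hx1, hx2, hx3⟩ := hclaim V V' qq (PSig n) h t ht hh phi (PP phi)
    (fun p hp => hp) 9 (by norm_num) _ hW
  refine ⟨x, ?_, ?_⟩
  · rw [hx1]
    have h1 : cl 9 (W0 (fun l => sP hn hs (sk l) l) ⁅zP hn hz 0, zP hn hz 1⁆).1.2 hp = 0 := by
      apply cl_zero'
      rw [W0_snd]
      exact Subgroup.one_mem _
    rw [h1, map_zero]
  · intro hx
    let psi : LV (Gr (PSig n) 1) →ₗ⁅ℤ⁆ AddMonoid.End V' := lift (phi.comp t)
    have hpsi : ∀ v, psi (inc v) = phi (t v) := fun v => lift_inc _ v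
    have h2 : ∀ x ∈ Lk (Gr (PSig n) 1) 2, ∃ a : Gr (PSig n) 2, h x = comp 2 a ∧
        psi x = phi2 a := by
      intro x hx
      have hx' : x ∈ AddSubgroup.closure {x : LV (Gr (PSig n) 1) | ∃ v : Gr (PSig n) 1,
        ∃ y ∈ Lk (Gr (PSig n) 1) 1, x = ⁅inc v, y⁆} := hx
      clear hx
      induction hx' using AddSubgroup.closure_induction with
      | mem x hx =>
        obtain ⟨v, y, hy, rfl⟩ := hx
        obtain ⟨w, rfl⟩ := mem_Lk_one hy
        refine ⟨gbr (t v) (t w), ?_, ?_⟩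
        · rw [LieHom.map_lie, hh, hh, lie_def, brE_comp]
        · rw [LieHom.map_lie, hpsi, hpsi]
          exact (hlie _ _).symm
      | zero => exact ⟨0, by rw [map_zero, map_zero], by rw [map_zero, map_zero]⟩
      | add x y _ _ h1 h2 =>
        obtain ⟨a, ha1, ha2⟩ := h1
        obtain ⟨b, hb1, hb2⟩ := h2
        exact ⟨a + b, by rw [map_add, map_add, ha1, hb1], by rw [map_add, map_add, ha2, hb2]⟩
      | neg x _ h1 =>
        obtain ⟨a, ha1, ha2⟩ := h1
        exact ⟨-a, by rw [map_neg, map_neg, ha1], by rw [map_neg, map_neg, ha2]⟩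
    have h3 : ∀ s ∈ S, psi s = 0 := by
      intro s hs
      obtain ⟨a, ha1, ha2⟩ := h2 s (hS hs)
      rw [hS' s hs] at ha1
      have ha : a = 0 := by
        have := DirectSum.of_injective (β := Gr (PSig n)) 2 (a₁ := 0) (a₂ := a) (by
          rw [map_zero]
          exact ha1)
        exact this.symm
      rw [ha2, ha, map_zero]
    have h4 : idl S ≤ kerI psi (map_zero _) (map_add _) (LieHom.map_lie _) := by
      refine LieSubmodule.lieSpan_le.2 ?_
      intro s hs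
      exact h3 s hs
    have h5 : psi x = 0 := h4 hx
    -- evaluate at the vector `(1, 0, 0)`
    obtain ⟨w, hw⟩ := hx3 v0
    have h6 : lift (phi.comp t) x = (0 : AddMonoid.End V') := h5
    rw [h6] at hw
    have h7 : red (fT K (a v0).2.2) = 0 := by
      have h8 : red (fT K (a v0).2.2) = (0 : ZMod 2) + 2 • w.2.2 :=
        congrArg (fun v : V' => v.2.2) hw
      rw [h8, zero_add, two_nsmul]
      exact CharTwo.add_self_eq_zero _
    rw [W0_fst hn hs hz t1] at hx2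
    have h10 := third_comp _ a hx2
    have h14 := fT_sum hexp hinv hnum hsyz
    rw [h10, map_smul, smul_eq_mul] at h14
    have h15 := red_zero _ h7
    have h16 : (2 : K) ^ 9 = 512 := by decide
    rw [h16, h15] at h14
    exact absurd h14 (by decide)

end Pool.Agent.H927.QP
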