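import Mathlib

/-!
# `PΣ_4`: the modules and operators behind the non-quadratic relation

Conventions (indices `0, 1, 2`).  `FA R = R⟨x_0, x_1, x_2⟩`, `M R = FA R z_0 ⊕ FA R z_1` (a left
module, an element is the pair of its coefficients), `z_2 = - z_0 - z_1`.
`del k l` is the derivation `x_k ↦ [x_l, x_k]`, `D k l (u z_i) = del k l u • z_i + u D k l z_i`,
`D k l z_k = x_l z_k`, `D k l z_l = - x_l z_k`, `D k l z_m = 0` for `m ≠ k, l`.
-/

set_option autoImplicit false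

open scoped TensorProduct

noncomputable section

namespace Pool.Agent.H927.QP

/-- the free associative algebra on `x_0, x_1, x_2` -/
def FA (R : Type) [CommRing R] : Type := FreeAlgebra R (Fin 3)

instance instRingFA (R : Type) [CommRing R] : Ring (FA R) :=
  inferInstanceAs (Ring (FreeAlgebra R (Fin 3)))

instance instAlgebraFA (R : Type) [CommRing R] : Algebra R (FA R) :=
  inferInstanceAs (Algebra R (FreeAlgebra R (Fin 3)))

section gen

variable (R : Type) [CommRing R]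

/-- the generators -/
def x (c : Fin 3) : FA R := FreeAlgebra.ι R c

/-- algebra homomorphisms from the free algebra -/
def liftA {A : Type} [Ring A] [Algebra R A] (f : Fin 3 → A) : FA R →ₐ[R] A :=
  FreeAlgebra.lift R f

lemma liftA_x {A : Type} [Ring A] [Algebra R A] (f : Fin 3 → A) (c : Fin 3) :
    liftA R f (x R c) = f c := FreeAlgebra.lift_ι_apply f c

lemma hom_extA {A : Type} [Ring A] [Algebra R A] {f g : FA R →ₐ[R] A}
    (h : ∀ c, f (x R c) = g (x R c)) : f = g := by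
  have h1 : (f : FreeAlgebra R (Fin 3) →ₐ[R] A) = (g : FreeAlgebra R (Fin 3) →ₐ[R] A) :=
    FreeAlgebra.hom_ext (funext h)
  exact h1

/-- induction on elements of the free algebra -/
lemma indA {p : FA R → Prop} (h0 : ∀ r : R, p (algebraMap R (FA R) r)) (h1 : ∀ c, p (x R c))
    (ha : ∀ a b, p a → p b → p (a + b)) (hm : ∀ a b, p a → p b → p (a * b)) (a : FA R) : p a :=
  FreeAlgebra.induction R (Fin 3) (motive := p) h0 h1 hm ha a

/-- the word with the given letters -/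
def wd (w : List (Fin 3)) : FA R := (w.map (x R)).prod

/-- `x_k ↦ x_k + T [x_l, x_k] - T ^ 2 [x_l, x_k] x_l`, the other generators are fixed -/
def hat (k l : Fin 3) : FA R →ₐ[R] Polynomial (FA R) :=
  liftA R (fun c => if c = k then
    Polynomial.C (x R k) + Polynomial.X * Polynomial.C (x R l * x R k - x R k * x R l)
      - Polynomial.X ^ 2 * Polynomial.C ((x R l * x R k - x R k * x R l) * x R l)
    else Polynomial.C (x R c))

/-- the first order part: the derivation `x_k ↦ [x_l, x_k]` -/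
def del (k l : Fin 3) : FA R →ₗ[R] FA R where
  toFun a := (hat R k l a).coeff 1
  map_add' a b := by rw [map_add, Polynomial.coeff_add]
  map_smul' r a := by rw [map_smul, Polynomial.coeff_smul, RingHom.id_apply]

/-- the second order part -/
def sec (k l : Fin 3) : FA R →ₗ[R] FA R where
  toFun a := (hat R k l a).coeff 2
  map_add' a b := by rw [map_add, Polynomial.coeff_add]
  map_smul' r a := by rw [map_smul, Polynomial.coeff_smul, RingHom.id_apply]

/-- the free left module with basis `z_0, z_1` -/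
abbrev M : Type := Fin 2 → FA R

/-- `D k l z_i = aco k l i • x_l z_k` -/
def aco (k l : Fin 3) (i : Fin 2) : ℤ :=
  (if i.castSucc = k then 1 else 0) - (if i.castSucc = l then 1 else 0)

/-- `z_k = bco k 0 • z_0 + bco k 1 • z_1` -/
def bco (k : Fin 3) (j : Fin 2) : ℤ := if k = 2 then -1 else if j.castSucc = k then 1 else 0

/-- the vectors `z_0, z_1, z_2 = - z_0 - z_1` -/
def z (k : Fin 3) : M R := fun j => ((bco k j : ℤ) : FA R)

/-- the first order operator on `M` -/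
def D (k l : Fin 3) : M R →ₗ[R] M R where
  toFun m j := del R k l (m j) + bco k j • ((aco k l 0 • m 0 + aco k l 1 • m 1) * x R l)
  map_add' m m' := by
    funext j
    simp only [Pi.add_apply, map_add, smul_add, add_mul]
    abel
  map_smul' r m := by
    funext j
    simp only [Pi.smul_apply, map_smul, RingHom.id_apply, smul_add]
    rw [smul_comm (aco k l 0) r, smul_comm (aco k l 1) r, ← smul_add, smul_mul_assoc,
      smul_comm (bco k j) r]

/-- the second order operator on `M` -/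
def E (k l : Fin 3) : M R →ₗ[R] M R where
  toFun m j := sec R k l (m j) +
    bco k j • ((aco k l 0 • del R k l (m 0) + aco k l 1 • del R k l (m 1)) * x R l)
  map_add' m m' := by
    funext j
    simp only [Pi.add_apply, map_add, smul_add, add_mul]
    abel
  map_smul' r m := by
    funext j
    simp only [Pi.smul_apply, map_smul, RingHom.id_apply, smul_add]
    rw [smul_comm (aco k l 0) r, smul_comm (aco k l 1) r, ← smul_add, smul_mul_assoc,
      smul_comm (bco k j) r]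

/-- left multiplication by `x_c` -/
def lx (c : Fin 3) : M R →ₗ[R] M R where
  toFun m j := x R c * m j
  map_add' m m' := by
    funext j
    simp only [Pi.add_apply, mul_add]
  map_smul' r m := by
    funext j
    simp only [Pi.smul_apply, mul_smul_comm, RingHom.id_apply]

/-- `M ⊗ M` -/
abbrev T : Type := M R ⊗[R] M R

/-- the first order operator on `M ⊗ M` -/
def D2 (k l : Fin 3) : T R →ₗ[R] T R :=
  TensorProduct.map (D R k l) LinearMap.id + TensorProduct.map LinearMap.id (D R k l)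

/-- the second order operator on `M ⊗ M` -/
def E2 (k l : Fin 3) : T R →ₗ[R] T R :=
  TensorProduct.map (E R k l) LinearMap.id + TensorProduct.map LinearMap.id (E R k l) +
    TensorProduct.map (D R k l) (D R k l)

/-- `z_0 ∧ z_1` -/
def om : T R := z R 0 ⊗ₜ[R] z R 1 - z R 1 ⊗ₜ[R] z R 0

end gen

/-- the operator number `l` is `D (sk l) l` -/
def sk : Fin 3 → Fin 3 := ![1, 0, 0]

/-- the operators along a word -/
def dW (R : Type) [CommRing R] : List (Fin 3) → (T R →ₗ[R] T R)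
  | [] => LinearMap.id
  | l :: w => D2 R (sk l) l ∘ₗ dW R w

/-- the syzygy: `48` words of degree `6` -/
def u0 : List (ℤ × List (Fin 3)) :=
   [(-1, [0, 0, 1, 1, 2, 2]), (1, [0, 0, 1, 2, 1, 2]), (-1, [0, 0, 2, 1, 2, 1]), (1, [0, 0, 2, 2, 1, 1]),
    (1, [0, 1, 0, 1, 2, 2]), (1, [0, 1, 1, 2, 2, 0]), (1, [0, 1, 2, 0, 2, 1]), (-1, [0, 1, 2, 1, 0, 2]),
    (-1, [0, 1, 2, 1, 2, 0]), (-1, [0, 1, 2, 2, 0, 1]), (-1, [0, 2, 0, 2, 1, 1]), (-1, [0, 2, 1, 0, 1, 2]),
    (1, [0, 2, 1, 1, 0, 2]), (1, [0, 2, 1, 2, 0, 1]), (1, [0, 2, 1, 2, 1, 0]), (-1, [0, 2, 2, 1, 1, 0]),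
    (-1, [1, 0, 0, 2, 2, 1]), (-1, [1, 0, 1, 0, 2, 2]), (1, [1, 0, 2, 0, 1, 2]), (1, [1, 0, 2, 0, 2, 1]),
    (-1, [1, 0, 2, 1, 2, 0]), (1, [1, 0, 2, 2, 1, 0]), (1, [1, 1, 0, 0, 2, 2]), (-1, [1, 1, 0, 2, 0, 2]),
    (1, [1, 1, 2, 0, 2, 0]), (-1, [1, 1, 2, 2, 0, 0]), (-1, [1, 2, 0, 0, 1, 2]), (1, [1, 2, 0, 1, 0, 2]),
    (-1, [1, 2, 0, 2, 0, 1]), (-1, [1, 2, 0, 2, 1, 0]), (1, [1, 2, 1, 2, 0, 0]), (1, [1, 2, 2, 0, 0, 1]),
    (1, [2, 0, 0, 1, 1, 2]), (-1, [2, 0, 1, 0, 1, 2]), (-1, [2, 0, 1, 0, 2, 1]), (-1, [2, 0, 1, 1, 2, 0]),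
    (1, [2, 0, 1, 2, 1, 0]), (1, [2, 0, 2, 0, 1, 1]), (1, [2, 1, 0, 0, 2, 1]), (1, [2, 1, 0, 1, 0, 2]),
    (1, [2, 1, 0, 1, 2, 0]), (-1, [2, 1, 0, 2, 0, 1]), (-1, [2, 1, 1, 0, 0, 2]), (-1, [2, 1, 2, 1, 0, 0]),
    (-1, [2, 2, 0, 0, 1, 1]), (1, [2, 2, 0, 1, 0, 1]), (-1, [2, 2, 1, 0, 1, 0]), (1, [2, 2, 1, 1, 0, 0])]

/-- the words on which the pairing is `1` -/
def gl (i j : Fin 2) : List (List (Fin 3)) :=
  if i = 0 then
    if j = 0 then
      [[1, 0, 1, 2, 2, 2, 0], [1, 0, 2, 2, 2, 1, 0], [2, 0, 1, 2, 2, 1, 0],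
      [2, 1, 0, 1, 2, 2, 0], [2, 1, 0, 2, 2, 1, 0], [2, 2, 0, 1, 2, 1, 0],
      [2, 2, 1, 0, 1, 2, 0], [2, 2, 1, 0, 2, 1, 0], [2, 2, 2, 0, 1, 0, 1]]
    else
      [[1, 0, 2, 0, 2, 2, 1], [1, 0, 2, 2, 0, 2, 1], [1, 0, 2, 2, 2, 0, 1],
      [1, 0, 2, 2, 2, 1, 0], [2, 0, 1, 0, 2, 2, 1], [2, 0, 1, 2, 0, 2, 1],
      [2, 0, 1, 2, 2, 0, 1], [2, 0, 1, 2, 2, 1, 0], [2, 1, 0, 2, 0, 2, 1],
      [2, 1, 0, 2, 2, 0, 1], [2, 1, 0, 2, 2, 1, 0], [2, 2, 0, 1, 0, 2, 1],
      [2, 2, 0, 1, 2, 0, 1], [2, 2, 0, 1, 2, 1, 0], [2, 2, 1, 0, 2, 0, 1],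
      [2, 2, 1, 0, 2, 1, 0], [2, 2, 2, 1, 0, 1, 0]]
  else
    if j = 0 then
      [[0, 1, 2, 2, 2, 1, 0]]
    else
      [[0, 1, 0, 2, 2, 2, 1], [0, 1, 2, 0, 2, 2, 1], [0, 1, 2, 2, 0, 2, 1],
      [0, 1, 2, 2, 2, 0, 1], [0, 1, 2, 2, 2, 1, 0]]

section pairing

variable (R : Type) [CommRing R]

/-- the basis of words -/
def bas : Module.Basis (FreeMonoid (Fin 3)) R (FA R) := FreeAlgebra.basisFreeMonoid R (Fin 3)

/-- the linear functional on the free algebra with given values on the words -/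
def wfun (g : List (Fin 3) → ℤ) : FA R →ₗ[R] R :=
  (bas R).constr R (fun w => ((g w.toList : ℤ) : R))

/-- the functional `G_{ij}` -/
def gf (i j : Fin 2) : FA R →ₗ[R] R := wfun R (fun w => if w ∈ gl i j then 1 else 0)

/-- reversal of words, as a homomorphism to the opposite algebra -/
def revOp : FA R →ₐ[R] (FA R)ᵐᵒᵖ := liftA R (fun c => MulOpposite.op (x R c))

/-- reversal of words -/
def rev : FA R →ₗ[R] FA R :=
  (MulOpposite.opLinearEquiv R).symm.toLinearMap ∘ₗ (revOp R).toLinearMap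

/-- the pairing: `(u z_i, v z_j) ↦ G_{ij}(rev u * v)` -/
def pr : M R →ₗ[R] M R →ₗ[R] R :=
  LinearMap.mk₂ R (fun m m' => ∑ i, ∑ j, gf R i j (rev R (m i) * m' j))
    (fun m₁ m₂ m' => by
      simp only [Pi.add_apply, map_add, add_mul, Finset.sum_add_distrib])
    (fun r m m' => by
      simp only [Pi.smul_apply, map_smul, smul_mul_assoc, Finset.smul_sum])
    (fun m m₁ m₂ => by
      simp only [Pi.add_apply, map_add, mul_add, Finset.sum_add_distrib])
    (fun r m m' => by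
      simp only [Pi.smul_apply, map_smul, mul_smul_comm, Finset.smul_sum])

/-- the pairing on `M ⊗ M` -/
def fT : T R →ₗ[R] R := TensorProduct.lift (pr R)

end pairing

end Pool.Agent.H927.QP
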