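import Pool.Agent.H927.QP.Defs

/-!
# The group level: congruence filtration over `ZMod 1024`
-/

set_option autoImplicit false

open scoped TensorProduct

noncomputable section

namespace Pool.Agent.H927.QP

/-- the base ring -/
abbrev K : Type := ZMod 1024

/-- an inverse of `1 + 2 x_l` -/
def yi (l : Fin 3) : FA K := ∑ n ∈ Finset.range 10, (-(2 * x K l)) ^ n

lemma two_pow_ten (a : FA K) : (2 * a) ^ 10 = 0 := by
  have h : (2 : FA K) * a = (2 : K) • a := by
    rw [Algebra.smul_def, map_ofNat]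
  rw [h, smul_pow]
  have : ((2 : K) ^ 10) = 0 := by decide
  rw [this, zero_smul]

lemma y_mul_yi (l : Fin 3) : (1 + 2 * x K l) * yi l = 1 := by
  have h := mul_neg_geom_sum (-(2 * x K l)) 10
  rw [sub_neg_eq_add] at h
  unfold yi
  rw [h, neg_pow, two_pow_ten, mul_zero, sub_zero]

lemma yi_mul_y (l : Fin 3) : yi l * (1 + 2 * x K l) = 1 := by
  have h := geom_sum_mul_neg (-(2 * x K l)) 10
  rw [sub_neg_eq_add] at h
  unfold yi
  rw [h, neg_pow, two_pow_ten, mul_zero, sub_zero]

/-- the unit `y_l = 1 + 2 x_l` -/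
def y (l : Fin 3) : (FA K)ˣ := ⟨1 + 2 * x K l, yi l, y_mul_yi l, yi_mul_y l⟩

/-- the algebra endomorphism `x_k ↦ u x_k u⁻¹` -/
def alpha (k : Fin 3) (u : (FA K)ˣ) : FA K →ₐ[K] FA K :=
  liftA K (fun c => if c = k then (u : FA K) * x K k * ((u⁻¹ : (FA K)ˣ) : FA K)
    else x K c)

/-- the action on `M`: `z_i ↦ z_i + (u - 1) a_i z_k`, semilinear over `alpha` -/
def theta (k l : Fin 3) (u : (FA K)ˣ) : Module.End K (M K) where
  toFun m j := alpha k u (m j) +
    bco k j • ((aco k l 0 • alpha k u (m 0) + aco k l 1 • alpha k u (m 1)) * ((u : FA K) - 1))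
  map_add' m m' := by
    funext j
    simp only [Pi.add_apply, map_add, smul_add, add_mul]
    abel
  map_smul' r m := by
    funext j
    simp only [Pi.smul_apply, map_smul, RingHom.id_apply, smul_add]
    rw [smul_comm (aco k l 0) r, smul_comm (aco k l 1) r, ← smul_add, smul_mul_assoc,
      smul_comm (bco k j) r]

/-- left multiplication by an element of `FA K` -/
def lmul (a : FA K) : Module.End K (M K) where
  toFun m j := a * m j
  map_add' m m' := by
    funext j
    simp only [Pi.add_apply, mul_add]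
  map_smul' r m := by
    funext j
    simp only [Pi.smul_apply, mul_smul_comm, RingHom.id_apply]

/-- the `K`-module `K ⊕ M ⊕ M ⊗ M` -/
def V : Type := K × M K × T K

instance instGroupV : AddCommGroup V := inferInstanceAs (AddCommGroup (K × M K × T K))

instance instModuleV : Module K V := inferInstanceAs (Module K (K × M K × T K))

/-- the action on `V` of an endomorphism of `M` -/
def rho : Module.End K (M K) →* Module.End K V where
  toFun θ :=
    { toFun := fun v => (v.1, θ v.2.1, TensorProduct.map θ θ v.2.2)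
      map_add' := fun v w => by
        change (v.1 + w.1, θ (v.2.1 + w.2.1), TensorProduct.map θ θ (v.2.2 + w.2.2)) =
          (v.1 + w.1, θ v.2.1 + θ w.2.1, TensorProduct.map θ θ v.2.2 + TensorProduct.map θ θ w.2.2)
        rw [map_add, map_add]
      map_smul' := fun r v => by
        change (r • v.1, θ (r • v.2.1), TensorProduct.map θ θ (r • v.2.2)) =
          (r • v.1, r • θ v.2.1, r • TensorProduct.map θ θ v.2.2)
        rw [map_smul, map_smul] }
  map_one' := by
    refine LinearMap.ext fun v => ?_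
    change (v.1, v.2.1, TensorProduct.map LinearMap.id LinearMap.id v.2.2) = v
    rw [TensorProduct.map_id]
    rfl
  map_mul' θ θ' := by
    refine LinearMap.ext fun v => ?_
    change (v.1, θ (θ' v.2.1), TensorProduct.map (θ ∘ₗ θ') (θ ∘ₗ θ') v.2.2) =
      (v.1, θ (θ' v.2.1), TensorProduct.map θ θ (TensorProduct.map θ' θ' v.2.2))
    rw [TensorProduct.map_comp]
    rfl

/-- left multiplication by `m ∈ M` in the truncated tensor algebra -/
def lm (m : M K) : Module.End K V where
  toFun v := (0, v.1 • m, m ⊗ₜ[K] v.2.1)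
  map_add' v w := by
    change ((0 : K), (v.1 + w.1) • m, m ⊗ₜ[K] (v.2.1 + w.2.1)) =
      (0 + 0, v.1 • m + w.1 • m, m ⊗ₜ[K] v.2.1 + m ⊗ₜ[K] w.2.1)
    rw [add_smul, TensorProduct.tmul_add, add_zero]
  map_smul' r v := by
    change ((0 : K), (r • v.1) • m, m ⊗ₜ[K] (r • v.2.1)) =
      (r • 0, r • v.1 • m, r • (m ⊗ₜ[K] v.2.1))
    rw [smul_assoc, TensorProduct.tmul_smul, smul_zero]

/-- left multiplication by `τ ∈ M ⊗ M` in the truncated tensor algebra -/
def lt (τ : T K) : Module.End K V where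
  toFun v := (0, 0, v.1 • τ)
  map_add' v w := by
    change ((0 : K), (0 : M K), (v.1 + w.1) • τ) = (0 + 0, 0 + 0, v.1 • τ + w.1 • τ)
    rw [add_smul, add_zero, add_zero]
  map_smul' r v := by
    change ((0 : K), (0 : M K), (r • v.1) • τ) = (r • 0, r • 0, r • v.1 • τ)
    rw [smul_assoc, smul_zero, smul_zero]

lemma lm_mul_lm (m m' : M K) : lm m * lm m' = lt (m ⊗ₜ[K] m') := by
  refine LinearMap.ext fun v => ?_
  change ((0 : K), (0 : K) • m, m ⊗ₜ[K] (v.1 • m')) = (0, 0, v.1 • (m ⊗ₜ[K] m'))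
  rw [zero_smul, TensorProduct.tmul_smul]

lemma lm_mul_lt (m : M K) (τ : T K) : lm m * lt τ = 0 := by
  refine LinearMap.ext fun v => ?_
  change ((0 : K), (0 : K) • m, m ⊗ₜ[K] (0 : M K)) = 0
  rw [zero_smul, TensorProduct.tmul_zero]
  rfl

lemma lt_mul_lm (τ : T K) (m : M K) : lt τ * lm m = 0 := by
  refine LinearMap.ext fun v => ?_
  change ((0 : K), (0 : M K), (0 : K) • τ) = 0
  rw [zero_smul]
  rfl

lemma lt_mul_lt (τ τ' : T K) : lt τ * lt τ' = 0 := by
  refine LinearMap.ext fun v => ?_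
  change ((0 : K), (0 : M K), (0 : K) • τ) = 0
  rw [zero_smul]
  rfl

lemma lt_add (τ τ' : T K) : lt (τ + τ') = lt τ + lt τ' := by
  refine LinearMap.ext fun v => ?_
  change ((0 : K), (0 : M K), v.1 • (τ + τ')) = (0 + 0, 0 + 0, v.1 • τ + v.1 • τ')
  rw [smul_add, add_zero, add_zero]

/-- left multiplication by `1 + m` -/
def em (m : M K) : (Module.End K V)ˣ where
  val := 1 + lm m
  inv := 1 - lm m + lt (m ⊗ₜ[K] m)
  val_inv := by
    rw [add_mul, one_mul, mul_add, lm_mul_lt, mul_sub, mul_one, lm_mul_lm]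
    abel
  inv_val := by
    rw [mul_add, mul_one, add_mul, lt_mul_lm, sub_mul, one_mul, lm_mul_lm]
    abel

/-- left multiplication by `1 + τ` -/
def ut (τ : T K) : (Module.End K V)ˣ where
  val := 1 + lt τ
  inv := 1 - lt τ
  val_inv := by
    rw [add_mul, one_mul, mul_sub, lt_mul_lt, mul_one]
    abel
  inv_val := by
    rw [mul_add, mul_one, sub_mul, lt_mul_lt, one_mul]
    abel

end Pool.Agent.H927.QP
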