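import Pool.Agent.H927.QP.Vg

/-!
# Expansion of the products of commutators
-/

set_option autoImplicit false

open scoped TensorProduct

noncomputable section

namespace Pool.Agent.H927.QP

/-- a basis of `M K` -/
def bM : Module.Basis (Σ _ : Fin 2, FreeMonoid (Fin 3)) K (M K) := Pi.basis (fun _ => bas K)

lemma exp_lin (h : S_exp) {k l : Fin 3} (hkl : k ≠ l) : ∃ r : Module.End K (M K),
    theta k l (y l) = 1 + (2 : K) • D K k l + (4 : K) • E K k l + (8 : K) • r := by
  choose r hr using h k l hkl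
  refine ⟨bM.constr K (fun i => r (bM i)), ?_⟩
  apply bM.ext
  intro i
  rw [hr]
  simp only [LinearMap.add_apply, LinearMap.smul_apply, Module.End.one_apply,
    Module.Basis.constr_basis]

lemma map_exp (h : S_exp) {k l : Fin 3} (hkl : k ≠ l) (τ : T K) : ∃ r : T K,
    TensorProduct.map (theta k l (y l)) (theta k l (y l)) τ =
      τ + (2 : K) • D2 K k l τ + (4 : K) • E2 K k l τ + (8 : K) • r := by
  induction τ using TensorProduct.induction_on with
  | zero => exact ⟨0, by simp⟩
  | tmul m m' =>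
    obtain ⟨s, hs⟩ := h k l hkl m
    obtain ⟨s', hs'⟩ := h k l hkl m'
    refine ⟨m ⊗ₜ[K] s' + s ⊗ₜ[K] m' + D K k l m ⊗ₜ[K] E K k l m' + E K k l m ⊗ₜ[K] D K k l m'
      + (2 : K) • (D K k l m ⊗ₜ[K] s') + (2 : K) • (s ⊗ₜ[K] D K k l m')
      + (2 : K) • (E K k l m ⊗ₜ[K] E K k l m') + (4 : K) • (E K k l m ⊗ₜ[K] s')
      + (4 : K) • (s ⊗ₜ[K] E K k l m') + (8 : K) • (s ⊗ₜ[K] s'), ?_⟩
    rw [TensorProduct.map_tmul, hs, hs']
    unfold D2 E2
    simp only [LinearMap.add_apply, TensorProduct.map_tmul, LinearMap.id_apply]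
    generalize D K k l m = a
    generalize E K k l m = b
    generalize D K k l m' = a'
    generalize E K k l m' = b'
    simp only [TensorProduct.add_tmul, TensorProduct.tmul_add, TensorProduct.tmul_smul,
      ← TensorProduct.smul_tmul', smul_add, smul_smul]
    module
  | add τ τ' h1 h2 =>
    obtain ⟨s, hs⟩ := h1
    obtain ⟨s', hs'⟩ := h2
    refine ⟨s + s', ?_⟩
    rw [map_add, map_add, map_add, hs, hs']
    module

lemma smul_sub_T (c : K) (a b : T K) : c • a - c • b = c • (a - b) := (smul_sub c a b).symm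

/-- the operators -/
def th0 (l : Fin 3) : Module.End K (M K) := theta (sk l) l (y l)

lemma sk_ne (l : Fin 3) : sk l ≠ l := by
  fin_cases l <;> decide

lemma tw_low (h : S_exp) (w : List (Fin 3)) : ∃ s : T K,
    tw th0 ((4 : K) • om K) w = (2 : K) ^ (w.length + 2) • (dW K w (om K) + (2 : K) • s) := by
  induction w with
  | nil =>
    refine ⟨0, ?_⟩
    change (4 : K) • om K = (2 : K) ^ (0 + 2) • (om K + (2 : K) • (0 : T K))
    rw [smul_zero, add_zero]
    norm_num
  | cons l w ih =>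
    obtain ⟨s, hs⟩ := ih
    obtain ⟨r, hr⟩ := map_exp h (sk_ne l) (dW K w (om K) + (2 : K) • s)
    refine ⟨D2 K (sk l) l s + E2 K (sk l) l (dW K w (om K) + (2 : K) • s) + (2 : K) • r, ?_⟩
    change TensorProduct.map (theta (sk l) l (y l)) (theta (sk l) l (y l)) (tw th0 _ w) -
      tw th0 _ w = (2 : K) ^ (w.length + 1 + 2) • (D2 K (sk l) l (dW K w (om K)) + _)
    rw [hs, map_smul, smul_sub_T, hr, map_add (D2 K (sk l) l), map_smul (D2 K (sk l) l)]
    generalize D2 K (sk l) l (dW K w (om K)) = a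
    generalize D2 K (sk l) l s = b
    generalize E2 K (sk l) l (dW K w (om K) + (2 : K) • s) = e
    rw [pow_succ (2 : K) (w.length + 1 + 1), show w.length + 1 + 1 = w.length + 2 from rfl]
    generalize (2 : K) ^ (w.length + 2) = c
    module

lemma tw_top (h : S_exp) (l : Fin 3) (w : List (Fin 3)) : ∃ s r : T K,
    tw th0 ((4 : K) • om K) (l :: w) = (2 : K) ^ (w.length + 3) •
      (dW K (l :: w) (om K) + (2 : K) • eW (l :: w) + (2 : K) • D2 K (sk l) l s +
        (4 : K) • r) := by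
  obtain ⟨s, hs⟩ := tw_low h w
  obtain ⟨r, hr⟩ := map_exp h (sk_ne l) (dW K w (om K) + (2 : K) • s)
  refine ⟨s, E2 K (sk l) l s + r, ?_⟩
  change TensorProduct.map (theta (sk l) l (y l)) (theta (sk l) l (y l)) (tw th0 _ w) -
    tw th0 _ w = (2 : K) ^ (w.length + 3) • (D2 K (sk l) l (dW K w (om K)) +
      (2 : K) • E2 K (sk l) l (dW K w (om K)) + _ + _)
  rw [hs, map_smul, smul_sub_T, hr, map_add (D2 K (sk l) l), map_smul (D2 K (sk l) l),
    map_add (E2 K (sk l) l), map_smul (E2 K (sk l) l)]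
  generalize D2 K (sk l) l (dW K w (om K)) = a
  generalize D2 K (sk l) l s = b
  generalize E2 K (sk l) l (dW K w (om K)) = e
  generalize E2 K (sk l) l s = e'
  rw [pow_succ (2 : K) (w.length + 2)]
  generalize (2 : K) ^ (w.length + 2) = c
  module

lemma fT_tw (h : S_exp) (hi : S_inv) (w : List (Fin 3)) (hw : w.length = 6) : ∃ c : K,
    fT K (tw th0 ((4 : K) • om K) w) =
      256 * (fT K (dW K w (om K)) + 2 * fT K (eW w) + 4 * c) := by
  rcases w with _ | ⟨l, w⟩
  · simp at hw
  · obtain ⟨s, r, hs⟩ := tw_top h l w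
    obtain ⟨c, hc⟩ := hi (sk l) l (sk_ne l) s
    refine ⟨c + fT K r, ?_⟩
    have h5 : w.length = 5 := by simpa using hw
    rw [hs, h5, map_smul, map_add, map_add, map_add, map_smul, map_smul, map_smul, hc]
    simp only [smul_eq_mul]
    ring

lemma fT_list (h : S_exp) (hi : S_inv) (L : List (ℤ × List (Fin 3)))
    (hL : ∀ p ∈ L, p.2.length = 6) : ∃ c : K,
    fT K ((L.map fun p => p.1 • tw th0 ((4 : K) • om K) p.2).sum) =
      256 * (fT K ((L.map fun p => p.1 • dW K p.2 (om K)).sum) +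
        2 * (L.map fun p => p.1 • fT K (eW p.2)).sum + 4 * c) := by
  induction L with
  | nil => exact ⟨0, by simp⟩
  | cons p L ih =>
    obtain ⟨c, hc⟩ := ih (fun q hq => hL q (List.mem_cons_of_mem _ hq))
    obtain ⟨d, hd⟩ := fT_tw h hi p.2 (hL p List.mem_cons_self)
    refine ⟨c + p.1 * d, ?_⟩
    simp only [List.map_cons, List.sum_cons, map_add, map_zsmul]
    rw [hc, hd]
    simp only [zsmul_eq_mul]
    ring

lemma u0_len : ∀ p ∈ u0, p.2.length = 6 := by
  decide +kernel

/-- **the value of the pairing at the product of commutators** -/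
theorem fT_sum (h : S_exp) (hi : S_inv) (hn : S_num) (hs : S_syz) :
    fT K ((u0.map fun p => p.1 • tw th0 ((4 : K) • om K) p.2).sum) = 512 := by
  obtain ⟨c, hc⟩ := fT_list h hi u0 u0_len
  obtain ⟨d, hd⟩ := hn
  rw [hc, hs K, hd, map_zero]
  have h1 : (1024 : K) = 0 := by decide
  linear_combination (d + c) * h1

end Pool.Agent.H927.QP
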