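import Pool.Agent.H927.QP.InvChk
import Pool.Agent.H88.QP927.syz

/-!
# The pairing is invariant modulo two
-/

set_option autoImplicit false

open scoped TensorProduct

noncomputable section

namespace Pool.Agent.H927.QP.InvT

open Pool.Agent.H927.QP.Part_syz (gf_wd rev_mul rev_x rev_int pr_apply wd_cons wd_append del_mul
  del_x dx del_int D_apply bas_apply)

lemma gN_zero {i j : Fin 2} {v : List (Fin 3)} (h : v.length ≠ 7) : gN i j v = 0 := by
  unfold gN
  rw [if_neg]
  intro hv
  exact h (gl_len i j v hv)

lemma dN_zero (k l : Fin 3) (w : List (Fin 3)) (g : List (Fin 3) → ℤ)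
    (h : ∀ v, v.length = w.length + 1 → g v = 0) : dN k l g w = 0 := by
  induction w generalizing g with
  | nil => rfl
  | cons c w ih =>
    unfold dN
    rw [ih]
    · rw [h _ (by simp), h _ (by simp), sub_zero, add_zero]
      split_ifs <;> rfl
    · intro v hv
      exact h _ (by simp [hv])

lemma JN_even (k l : Fin 3) (hkl : k ≠ l) (i j : Fin 2) (w : List (Fin 3)) :
    JN k l i j w % 2 = 0 := by
  by_cases hw : w.length = 6
  · rcases w with _ | ⟨a, w⟩
    · simp at hw
    rcases w with _ | ⟨b, w⟩
    · simp at hw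
    rcases w with _ | ⟨c, w⟩
    · simp at hw
    rcases w with _ | ⟨d, w⟩
    · simp at hw
    rcases w with _ | ⟨e, w⟩
    · simp at hw
    rcases w with _ | ⟨f, w⟩
    · simp at hw
    rcases w with _ | ⟨g, w⟩
    · have h3 : ∀ a : Fin 3, a = 0 ∨ a = 1 ∨ a = 2 := by decide
      rcases h3 a with rfl | rfl | rfl
      · exact chk0 b c d e f k l hkl i j
      · exact chk1 b c d e f k l hkl i j
      · exact chk2 b c d e f k l hkl i j
    · simp at hw
  · have h1 : JN k l i j w = 0 := by
      unfold JN
      rw [dN_zero k l w (gN i j) (fun v hv => gN_zero (by omega)),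
        gN_zero (by simp; omega), gN_zero (by simp; omega), gN_zero (by simp; omega),
        gN_zero (by simp; omega)]
      ring
    rw [h1]
    rfl

lemma gf_wd' (i j : Fin 2) (v : List (Fin 3)) : gf K i j (wd K v) = ((gN i j v : ℤ) : K) := by
  rw [gf_wd]
  unfold gN
  split_ifs <;> simp

lemma dN_cons (k l : Fin 3) (g : List (Fin 3) → ℤ) (c : Fin 3) (w : List (Fin 3)) :
    dN k l g (c :: w) = (if c = k then g (l :: k :: w) - g (k :: l :: w) else 0) +
      dN k l (fun v => g (c :: v)) w := rfl

lemma gf_del (k l : Fin 3) (i j : Fin 2) (w r : List (Fin 3)) :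
    gf K i j (wd K r * del K k l (wd K w)) = ((dN k l (fun v => gN i j (r ++ v)) w : ℤ) : K) := by
  induction w generalizing r with
  | nil =>
    have h1 : wd K [] = ((1 : ℤ) : FA K) := by
      rw [Int.cast_one]
      rfl
    rw [h1, del_int, mul_zero, map_zero]
    rfl
  | cons c w ih =>
    rw [wd_cons, del_mul, mul_add, map_add, ← mul_assoc (wd K r) (x K c), ← wd_append, ih,
      dN_cons, Int.cast_add]
    congr 1
    · rw [del_x]
      unfold dx
      split_ifs with h
      · have h2 : wd K r * ((x K l * x K k - x K k * x K l) * wd K w) =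
          wd K (r ++ l :: k :: w) - wd K (r ++ k :: l :: w) := by
          have h3 : r ++ l :: k :: w = (r ++ [l]) ++ [k] ++ w := by simp
          have h4 : r ++ k :: l :: w = (r ++ [k]) ++ [l] ++ w := by simp
          have h5 : ∀ a b : List (Fin 3), wd K (a ++ b) = wd K a * wd K b := by
            intro a b
            unfold wd
            rw [List.map_append, List.prod_append]
          rw [h3, h4, h5 (r ++ [l] ++ [k]), h5 (r ++ [k] ++ [l]), wd_append, wd_append, wd_append,
            wd_append]
          noncomm_ring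
        rw [h2, map_sub, gf_wd', gf_wd', Int.cast_sub]
      · rw [zero_mul, mul_zero, map_zero, Int.cast_zero]
    · have h6 : (fun v => gN i j (r ++ [c] ++ v)) = (fun v => gN i j (r ++ (c :: v))) := by
        funext v
        rw [List.append_assoc]
        rfl
      rw [h6]

/-- the defect as a linear functional -/
def JK (k l : Fin 3) (i j : Fin 2) : FA K →ₗ[K] K where
  toFun a := gf K i j (del K k l a) + aco k l i • (bco k 0 • gf K 0 j (x K l * a) +
      bco k 1 • gf K 1 j (x K l * a)) + aco k l j • (bco k 0 • gf K i 0 (a * x K l) +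
      bco k 1 • gf K i 1 (a * x K l))
  map_add' a b := by
    simp only [map_add, mul_add, add_mul, smul_add]
    abel
  map_smul' r a := by
    simp only [map_smul, mul_smul_comm, smul_mul_assoc, RingHom.id_apply, smul_add, zsmul_eq_mul,
      smul_eq_mul]
    ring

lemma JK_wd (k l : Fin 3) (hkl : k ≠ l) (i j : Fin 2) (w : List (Fin 3)) :
    ∃ c : K, JK k l i j (wd K w) = 2 * c := by
  have h1 : JK k l i j (wd K w) = ((JN k l i j w : ℤ) : K) := by
    change gf K i j (del K k l (wd K w)) + aco k l i • (bco k 0 • gf K 0 j (x K l * wd K w) +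
      bco k 1 • gf K 1 j (x K l * wd K w)) + aco k l j • (bco k 0 • gf K i 0 (wd K w * x K l) +
      bco k 1 • gf K i 1 (wd K w * x K l)) = _
    have h2 := gf_del k l i j w []
    have h3 : wd K [] = 1 := rfl
    rw [h3, one_mul] at h2
    rw [h2, ← wd_cons, ← wd_append, gf_wd', gf_wd', gf_wd', gf_wd']
    unfold JN
    simp only [zsmul_eq_mul, List.nil_append]
    push_cast
    ring
  have h4 := JN_even k l hkl i j w
  refine ⟨((JN k l i j w / 2 : ℤ) : K), ?_⟩
  rw [h1]
  have h5 : JN k l i j w = 2 * (JN k l i j w / 2) := by omega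
  conv_lhs => rw [h5]
  push_cast
  ring

lemma JK_even (k l : Fin 3) (hkl : k ≠ l) (i j : Fin 2) (a : FA K) :
    ∃ c : K, JK k l i j a = 2 * c := by
  have h : a ∈ Submodule.span K (Set.range (bas K)) := by
    rw [(bas K).span_eq]
    exact Submodule.mem_top
  induction h using Submodule.span_induction with
  | mem a h =>
    obtain ⟨w, rfl⟩ := h
    rw [bas_apply]
    exact JK_wd k l hkl i j _
  | zero => exact ⟨0, by rw [map_zero, mul_zero]⟩
  | add a b _ _ h1 h2 =>
    obtain ⟨c, hc⟩ := h1
    obtain ⟨d, hd⟩ := h2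
    exact ⟨c + d, by rw [map_add, hc, hd, mul_add]⟩
  | smul r a _ h1 =>
    obtain ⟨c, hc⟩ := h1
    exact ⟨r * c, by rw [map_smul, hc, smul_eq_mul]; ring⟩

lemma rev_del (k l : Fin 3) (a : FA K) : rev K (del K k l a) = - del K k l (rev K a) := by
  refine indA K (p := fun a => rev K (del K k l a) = - del K k l (rev K a)) ?_ ?_ ?_ ?_ a
  · intro r
    have h1 : del K k l (algebraMap K (FA K) r) = 0 := by
      change (hat K k l (algebraMap K (FA K) r)).coeff 1 = 0
      rw [AlgHom.commutes, Polynomial.algebraMap_apply, Polynomial.coeff_C, if_neg one_ne_zero]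
    have h2 : rev K (algebraMap K (FA K) r) = algebraMap K (FA K) r := by
      change MulOpposite.unop (revOp K (algebraMap K (FA K) r)) = _
      rw [AlgHom.commutes]
      rfl
    rw [h1, h2, h1, map_zero, neg_zero]
  · intro c
    rw [rev_x, del_x]
    unfold dx
    split_ifs
    · rw [map_sub, rev_mul, rev_mul, rev_x, rev_x]
      abel
    · rw [map_zero, neg_zero]
  · intro a b ha hb
    rw [map_add, map_add, map_add, map_add, ha, hb]
    abel
  · intro a b ha hb
    rw [del_mul, map_add, rev_mul, rev_mul, rev_mul, del_mul, ha, hb]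
    noncomm_ring

lemma rev_zsmul (n : ℤ) (a : FA K) : rev K (n • a) = n • rev K a := map_zsmul _ _ _

lemma key_inv (k l : Fin 3) (m m' : M K) :
    pr K (D K k l m) m' + pr K m (D K k l m') =
      ∑ i, ∑ j, JK k l i j (rev K (m i) * m' j)
        - 2 * ∑ i, ∑ j, gf K i j (del K k l (rev K (m i)) * m' j) := by
  have hJ : ∀ i j a, JK k l i j a = gf K i j (del K k l a) +
      aco k l i • (bco k 0 • gf K 0 j (x K l * a) +
      bco k 1 • gf K 1 j (x K l * a)) + aco k l j • (bco k 0 • gf K i 0 (a * x K l) +
      bco k 1 • gf K i 1 (a * x K l)) := fun _ _ _ => rfl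
  simp only [hJ, pr_apply, D_apply, Fin.sum_univ_two, map_add, rev_mul, rev_del, rev_zsmul,
    del_mul, rev_x, add_mul, mul_add, smul_mul_assoc, mul_smul_comm, map_zsmul, neg_mul, map_neg,
    smul_add, mul_assoc]
  simp only [zsmul_eq_mul]
  ring

/-- **the pairing is invariant modulo two** -/
theorem inv : S_inv := by
  intro k l hkl τ
  induction τ using TensorProduct.induction_on with
  | zero => exact ⟨0, by rw [map_zero, map_zero, mul_zero]⟩
  | tmul m m' =>
    have h1 : fT K (D2 K k l (m ⊗ₜ[K] m')) = pr K (D K k l m) m' + pr K m (D K k l m') := by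
      unfold D2 fT
      rw [LinearMap.add_apply, TensorProduct.map_tmul, TensorProduct.map_tmul, map_add,
        TensorProduct.lift.tmul, TensorProduct.lift.tmul, LinearMap.id_apply, LinearMap.id_apply]
    choose c hc using fun i j => JK_even k l hkl i j (rev K (m i) * m' j)
    refine ⟨∑ i, ∑ j, c i j - ∑ i, ∑ j, gf K i j (del K k l (rev K (m i)) * m' j), ?_⟩
    rw [h1, key_inv]
    simp only [hc, Fin.sum_univ_two]
    ring
  | add τ τ' h1 h2 =>
    obtain ⟨c, hc⟩ := h1
    obtain ⟨d, hd⟩ := h2
    exact ⟨c + d, by rw [map_add, map_add, hc, hd, mul_add]⟩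

end Pool.Agent.H927.QP.InvT
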