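import Pool.Agent.H927.QP.Defs

/-!
# The finite check for the invariance of the pairing
-/

set_option autoImplicit false

namespace Pool.Agent.H927.QP.InvT

/-- the value of the pairing at a word -/
def gN (i j : Fin 2) (v : List (Fin 3)) : ℤ := if v ∈ gl i j then 1 else 0

/-- the value of a function on words at the derivative of a word -/
def dN (k l : Fin 3) : (List (Fin 3) → ℤ) → List (Fin 3) → ℤ
  | _, [] => 0
  | g, c :: w => (if c = k then g (l :: k :: w) - g (k :: l :: w) else 0) +
      dN k l (fun v => g (c :: v)) w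

/-- the defect of invariance -/
def JN (k l : Fin 3) (i j : Fin 2) (w : List (Fin 3)) : ℤ :=
  dN k l (gN i j) w + aco k l i * (bco k 0 * gN 0 j (l :: w) + bco k 1 * gN 1 j (l :: w))
    + aco k l j * (bco k 0 * gN i 0 (w ++ [l]) + bco k 1 * gN i 1 (w ++ [l]))

set_option maxRecDepth 100000 in
theorem chk0 : ∀ b c d e f : Fin 3, ∀ k l : Fin 3, k ≠ l → ∀ i j : Fin 2,
    JN k l i j [0, b, c, d, e, f] % 2 = 0 := by
  decide +kernel

set_option maxRecDepth 100000 in
theorem chk1 : ∀ b c d e f : Fin 3, ∀ k l : Fin 3, k ≠ l → ∀ i j : Fin 2,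
    JN k l i j [1, b, c, d, e, f] % 2 = 0 := by
  decide +kernel

set_option maxRecDepth 100000 in
theorem chk2 : ∀ b c d e f : Fin 3, ∀ k l : Fin 3, k ≠ l → ∀ i j : Fin 2,
    JN k l i j [2, b, c, d, e, f] % 2 = 0 := by
  decide +kernel

theorem gl_len : ∀ i j : Fin 2, ∀ v ∈ gl i j, v.length = 7 := by
  decide +kernel

end Pool.Agent.H927.QP.InvT
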