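import Pool.Agent.H927.QP.Asm2

/-!
# `PΣ_n` is not quadratic for `n ≥ 4`, from the parts
-/

set_option autoImplicit false

open scoped TensorProduct commutatorElement

noncomputable section

namespace Pool.Agent.H927.QP

open Pool.Agent.H297.QL (Gr gam cl gbr comp hc LV inc lift cl_add Lk idl kerI lift_inc exists_cl
  cl_zero' brE_comp lie_def inc_add IsQuadratic Quo toQ)

theorem not_quadratic_of {n : ℕ} (hn : 4 ≤ n) (hsyz : S_syz) (hnum : S_num) (hinv : S_inv)
    (hD : S_Drel) (hTh : S_theta) (hexp : S_exp) (hgrp : S_grp) (hphi : S_phi) (hPhi : S_Phi)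
    (hclaim : S_claim) : ¬ IsQuadratic (PSig n) := by
  rintro ⟨S, hS, f, hlie, hf⟩
  -- the map in degree one
  have h1 : ∀ v : Gr (PSig n) 1, ∃ a : Gr (PSig n) 1, f (toQ S (inc v)) = comp 1 a := fun v =>
    (hf 1 _).1 ⟨inc v, AddSubgroup.subset_closure ⟨v, rfl⟩, rfl⟩
  choose t ht using h1
  have hq : ∀ x y, toQ S (x + y) = toQ S x + toQ S y := fun x y => rfl
  have hinj : Function.Injective
      (comp 1 : Gr (PSig n) 1 →+ Pool.Agent.H297.QL.E (PSig n)) :=
    DirectSum.of_injective (β := Gr (PSig n)) 1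
  have hadd : ∀ v w, t (v + w) = t v + t w := by
    intro v w
    apply hinj
    rw [map_add, ← ht, ← ht, ← ht, ← map_add, inc_add, hq]
  have hsurj : Function.Surjective t := by
    intro a
    obtain ⟨x, hx⟩ := f.surjective (comp 1 a)
    obtain ⟨y, hy, rfl⟩ := (hf 1 x).2 ⟨a, hx⟩
    obtain ⟨v, rfl⟩ := mem_Lk_one hy
    refine ⟨v, ?_⟩
    apply hinj
    exact (ht v).symm.trans hx
  -- the homomorphism
  let h : LV (Gr (PSig n) 1) →ₗ⁅ℤ⁆ Pool.Agent.H297.QL.E (PSig n) :=
    { toFun := fun x => f (toQ S x)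
      map_add' := fun x y => map_add f (toQ S x) (toQ S y)
      map_smul' := fun n x => map_zsmul (AddMonoidHom.mk' (fun x : LV (Gr (PSig _) 1) =>
        f (toQ S x)) (fun x y => map_add f (toQ S x) (toQ S y))) n x
      map_lie' := fun {x y} => hlie (toQ S x) (toQ S y) }
  have hmk : ∀ x, h x = 0 → x ∈ idl S := by
    intro x hx
    have h2 : f (toQ S x) = f 0 := by
      rw [map_zero]
      exact hx
    exact (LieSubmodule.Quotient.mk_eq_zero').1 (f.injective h2)
  obtain ⟨x, h2, h3⟩ := key hn hsyz hnum hinv hD hTh hexp hgrp hphi hPhi hclaim h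
    (AddMonoidHom.mk' t hadd) hsurj ht S hS (fun s hs => by
      have h4 : toQ S s = 0 :=
        (LieSubmodule.Quotient.mk_eq_zero' (N := idl S)).2 (LieSubmodule.subset_lieSpan hs)
      change f (toQ S s) = 0
      rw [h4, map_zero])
  exact h3 (hmk x h2)

end Pool.Agent.H927.QP
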