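import Mathlib

/-!
# The group `PΣ_n` of basis-conjugating automorphisms
-/

set_option autoImplicit false

noncomputable section

namespace Pool.Agent.H927.QP

/-- `PΣ_n`: the automorphisms of the free group `F_n` sending each generator to a conjugate of
itself. -/
def PSig (n : ℕ) : Subgroup (MulAut (FreeGroup (Fin n))) where
  carrier := {g | ∀ i, ∃ w, g (FreeGroup.of i) = w * FreeGroup.of i * w⁻¹}
  one_mem' := fun i => ⟨1, by rw [MulAut.one_apply, one_mul, inv_one, mul_one]⟩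
  mul_mem' := fun {a b} ha hb i => by
    obtain ⟨w, hw⟩ := hb i
    obtain ⟨v, hv⟩ := ha i
    refine ⟨a w * v, ?_⟩
    rw [MulAut.mul_apply, hw, map_mul, map_mul, map_inv, hv]
    group
  inv_mem' := fun {a} ha i => by
    obtain ⟨w, hw⟩ := ha i
    refine ⟨(a⁻¹ w)⁻¹, ?_⟩
    have h : a⁻¹ (a (FreeGroup.of i)) = a⁻¹ (w * FreeGroup.of i * w⁻¹) := by rw [hw]
    rw [MulAut.inv_apply_self, map_mul, map_mul, map_inv] at h
    have h2 : (a⁻¹ w)⁻¹ * FreeGroup.of i * (a⁻¹ w)⁻¹⁻¹ =
        (a⁻¹ w)⁻¹ * ((a⁻¹) w * (a⁻¹) (FreeGroup.of i) * ((a⁻¹) w)⁻¹) * (a⁻¹ w)⁻¹⁻¹ := by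
      rw [← h]
    rw [h2]
    group

/-- the endomorphism `x_k ↦ u x_k u⁻¹`, the other generators are fixed -/
def cj {n : ℕ} (k : Fin n) (u : FreeGroup (Fin n)) : FreeGroup (Fin n) →* FreeGroup (Fin n) :=
  FreeGroup.lift (fun c => if c = k then u * FreeGroup.of k * u⁻¹ else FreeGroup.of c)

lemma cj_cj {n : ℕ} {k l : Fin n} (h : k ≠ l) :
    (cj k (FreeGroup.of l)).comp (cj k (FreeGroup.of l)⁻¹) = MonoidHom.id _ := by
  apply FreeGroup.ext_hom
  intro c
  have h1 : cj k (FreeGroup.of l) (FreeGroup.of l) = FreeGroup.of l := by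
    unfold cj
    rw [FreeGroup.lift_apply_of, if_neg (Ne.symm h)]
  have h2 : cj k (FreeGroup.of l) (FreeGroup.of k) =
      FreeGroup.of l * FreeGroup.of k * (FreeGroup.of l)⁻¹ := by
    unfold cj
    rw [FreeGroup.lift_apply_of, if_pos rfl]
  rw [MonoidHom.comp_apply, MonoidHom.id_apply]
  by_cases hc : c = k
  · subst hc
    have h3 : cj c (FreeGroup.of l)⁻¹ (FreeGroup.of c) =
        (FreeGroup.of l)⁻¹ * FreeGroup.of c * (FreeGroup.of l)⁻¹⁻¹ := by
      unfold cj
      rw [FreeGroup.lift_apply_of, if_pos rfl]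
    rw [h3, map_mul, map_mul, map_inv, map_inv, h1, h2, map_inv, h1]
    group
  · have h3 : cj k (FreeGroup.of l)⁻¹ (FreeGroup.of c) = FreeGroup.of c := by
      unfold cj
      rw [FreeGroup.lift_apply_of, if_neg hc]
    have h4 : cj k (FreeGroup.of l) (FreeGroup.of c) = FreeGroup.of c := by
      unfold cj
      rw [FreeGroup.lift_apply_of, if_neg hc]
    rw [h3, h4]

lemma cj_cj' {n : ℕ} {k l : Fin n} (h : k ≠ l) :
    (cj k (FreeGroup.of l)⁻¹).comp (cj k (FreeGroup.of l)) = MonoidHom.id _ := by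
  apply FreeGroup.ext_hom
  intro c
  have h1 : cj k (FreeGroup.of l)⁻¹ (FreeGroup.of l) = FreeGroup.of l := by
    unfold cj
    rw [FreeGroup.lift_apply_of, if_neg (Ne.symm h)]
  have h2 : cj k (FreeGroup.of l)⁻¹ (FreeGroup.of k) =
      (FreeGroup.of l)⁻¹ * FreeGroup.of k * (FreeGroup.of l)⁻¹⁻¹ := by
    unfold cj
    rw [FreeGroup.lift_apply_of, if_pos rfl]
  rw [MonoidHom.comp_apply, MonoidHom.id_apply]
  by_cases hc : c = k
  · subst hc
    have h3 : cj c (FreeGroup.of l) (FreeGroup.of c) =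
        FreeGroup.of l * FreeGroup.of c * (FreeGroup.of l)⁻¹ := by
      unfold cj
      rw [FreeGroup.lift_apply_of, if_pos rfl]
    rw [h3, map_mul, map_mul, map_inv, h1, h2]
    group
  · have h3 : cj k (FreeGroup.of l) (FreeGroup.of c) = FreeGroup.of c := by
      unfold cj
      rw [FreeGroup.lift_apply_of, if_neg hc]
    have h4 : cj k (FreeGroup.of l)⁻¹ (FreeGroup.of c) = FreeGroup.of c := by
      unfold cj
      rw [FreeGroup.lift_apply_of, if_neg hc]
    rw [h3, h4]

/-- the automorphism `χ_{kl} : x_k ↦ x_l x_k x_l⁻¹`, as an element of `PΣ_n` -/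
def chi {n : ℕ} (k l : Fin n) (h : k ≠ l) : PSig n :=
  ⟨MonoidHom.toMulEquiv (cj k (FreeGroup.of l)) (cj k (FreeGroup.of l)⁻¹) (cj_cj' h) (cj_cj h),
    fun i => by
      by_cases hi : i = k
      · subst hi
        exact ⟨FreeGroup.of l, by
          change cj i (FreeGroup.of l) (FreeGroup.of i) = _
          unfold cj
          rw [FreeGroup.lift_apply_of, if_pos rfl]⟩
      · exact ⟨1, by
          change cj k (FreeGroup.of l) (FreeGroup.of i) = _
          unfold cj
          rw [FreeGroup.lift_apply_of, if_neg hi, one_mul, inv_one, mul_one]⟩⟩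

lemma chi_apply {n : ℕ} {k l : Fin n} (h : k ≠ l) (w : FreeGroup (Fin n)) :
    (chi k l h : MulAut (FreeGroup (Fin n))) w = cj k (FreeGroup.of l) w := rfl

lemma chi_same {n : ℕ} {k l : Fin n} (h : k ≠ l) :
    (chi k l h : MulAut (FreeGroup (Fin n))) (FreeGroup.of k) =
      FreeGroup.of l * FreeGroup.of k * (FreeGroup.of l)⁻¹ := by
  rw [chi_apply]
  unfold cj
  rw [FreeGroup.lift_apply_of, if_pos rfl]

lemma chi_ne {n : ℕ} {k l c : Fin n} (h : k ≠ l) (hc : c ≠ k) :
    (chi k l h : MulAut (FreeGroup (Fin n))) (FreeGroup.of c) = FreeGroup.of c := by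
  rw [chi_apply]
  unfold cj
  rw [FreeGroup.lift_apply_of, if_neg hc]

/-- elements of `PΣ_n` are determined by the images of the generators -/
lemma psig_ext {n : ℕ} {g h : PSig n}
    (e : ∀ c, (g : MulAut (FreeGroup (Fin n))) (FreeGroup.of c) =
      (h : MulAut (FreeGroup (Fin n))) (FreeGroup.of c)) : g = h := by
  apply Subtype.ext
  apply MulEquiv.ext
  intro w
  have h1 : (g : MulAut (FreeGroup (Fin n))).toMonoidHom =
      (h : MulAut (FreeGroup (Fin n))).toMonoidHom := FreeGroup.ext_hom _ _ e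
  exact DFunLike.congr_fun h1 w

end Pool.Agent.H927.QP
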