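import Pool.Agent.H927.QP.PS

/-!
# The relations of McCool in `PΣ_n`
-/

set_option autoImplicit false

noncomputable section

namespace Pool.Agent.H927.QP

lemma mul_of {n : ℕ} (g h : PSig n) (x : FreeGroup (Fin n)) :
    ((g * h : PSig n) : MulAut (FreeGroup (Fin n))) x =
      (g : MulAut (FreeGroup (Fin n))) ((h : MulAut (FreeGroup (Fin n))) x) := rfl

lemma chi_rel1 {n : ℕ} {i j k : Fin n} (hij : i ≠ j) (hik : i ≠ k) (hkj : k ≠ j) :
    chi i j hij * chi k j hkj = chi k j hkj * chi i j hij := by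
  apply psig_ext
  intro c
  rw [mul_of, mul_of]
  by_cases h1 : c = i
  · subst h1
    rw [chi_ne hkj hik, chi_same, map_mul, map_mul, map_inv, chi_ne hkj hik,
      chi_ne hkj hkj.symm]
  · by_cases h2 : c = k
    · subst h2
      rw [chi_ne hij h1, chi_same, map_mul, map_mul, map_inv, chi_ne hij h1, chi_ne hij hij.symm]
    · rw [chi_ne hij h1, chi_ne hkj h2, chi_ne hij h1]

lemma chi_rel2 {n : ℕ} {i j k l : Fin n} (hij : i ≠ j) (hik : i ≠ k) (hil : i ≠ l) (hjk : j ≠ k)
    (hkl : k ≠ l) : chi i j hij * chi k l hkl = chi k l hkl * chi i j hij := by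
  apply psig_ext
  intro c
  rw [mul_of, mul_of]
  by_cases h1 : c = i
  · subst h1
    rw [chi_ne hkl hik, chi_same, map_mul, map_mul, map_inv, chi_ne hkl hik, chi_ne hkl hjk]
  · by_cases h2 : c = k
    · subst h2
      rw [chi_ne hij h1, chi_same, map_mul, map_mul, map_inv, chi_ne hij h1,
        chi_ne hij hil.symm]
    · rw [chi_ne hij h1, chi_ne hkl h2, chi_ne hij h1]

lemma chi_rel3 {n : ℕ} {i j k : Fin n} (hij : i ≠ j) (hik : i ≠ k) (hkj : k ≠ j) :
    (chi i j hij * chi k j hkj) * chi i k hik = chi i k hik * (chi i j hij * chi k j hkj) := by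
  apply psig_ext
  intro c
  rw [mul_of, mul_of, mul_of, mul_of]
  by_cases h1 : c = i
  · subst h1
    simp only [map_mul, map_inv, chi_same, chi_ne hkj hik, chi_ne hij hik.symm,
      chi_ne hij hij.symm, chi_ne hik hij.symm, chi_ne hik hik.symm, chi_ne hkj hkj.symm]
    group
  · by_cases h2 : c = k
    · subst h2
      rw [chi_ne hik h1, chi_same, map_mul, map_mul, map_inv, chi_ne hij h1, chi_ne hij hij.symm,
        map_mul, map_mul, map_inv, chi_ne hik h1, chi_ne hik hij.symm]
    · rw [chi_ne hik h1, chi_ne hkj h2, chi_ne hij h1, chi_ne hik h1]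

end Pool.Agent.H927.QP
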