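import Pool.Agent.H927.QP.Defs2
import Pool.Agent.H927.QP.PS
import Pool.Graph.R_pool_sql_team_seeded_620a6dc7.H297.QL.Free

/-!
# Statements of the parts

`PΣ_4` is not quadratic: parts of the proof, as propositions.
-/

set_option autoImplicit false

open scoped TensorProduct commutatorElement

noncomputable section

namespace Pool.Agent.H927.QP

open Pool.Agent.H297.QL (Gr gam cl gbr comp hc LV inc lift)

attribute [local instance 100] LieRing.ofAssociativeRing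

/-! ### Numerical facts -/

/-- the syzygy: `∑ ± D_{b_1} ⋯ D_{b_6} (z_0 ∧ z_1) = 0` over every commutative ring -/
def S_syz : Prop := ∀ (R : Type) [CommRing R], (u0.map fun p => p.1 • dW R p.2 (om R)).sum = 0

/-- the value at a word with second order operator at the front -/
def eW : List (Fin 3) → T K
  | [] => 0
  | l :: w => E2 K (sk l) l (dW K w (om K))

/-- the second order part of the syzygy is detected by the pairing -/
def S_num : Prop := ∃ c : K, (u0.map fun p => p.1 • fT K (eW p.2)).sum = 1 + 2 * c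

/-- the pairing is invariant modulo `2` -/
def S_inv : Prop := ∀ k l : Fin 3, k ≠ l → ∀ τ : T K, ∃ c : K, fT K (D2 K k l τ) = 2 * c

/-! ### The operators -/

/-- relations between the first order operators -/
def S_Drel : Prop :=
  (∀ k m j : Fin 3, k ≠ m → k ≠ j → m ≠ j → D K k j ∘ₗ D K m j = D K m j ∘ₗ D K k j) ∧
  (∀ i j k : Fin 3, i ≠ j → i ≠ k → j ≠ k →
    (D K i j + D K k j) ∘ₗ D K i k = D K i k ∘ₗ (D K i j + D K k j)) ∧
  (∀ k l m : Fin 3, k ≠ l → k ≠ m → l ≠ m → D K k l (z K m) = 0) ∧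
  (z K 0 + z K 1 + z K 2 = 0) ∧
  (∀ i j : Fin 2, pr K (z K i.castSucc) (z K j.castSucc) = 0)

/-- relations between the group elements -/
def S_theta : Prop := ∃ th : Fin 3 → Fin 3 → (Module.End K (M K))ˣ,
  (∀ k l, k ≠ l → ((th k l : (Module.End K (M K))ˣ) : Module.End K (M K)) = theta k l (y l)) ∧
  (∀ k m j : Fin 3, k ≠ m → k ≠ j → m ≠ j → Commute (th k j) (th m j)) ∧
  (∀ i j k : Fin 3, i ≠ j → i ≠ k → j ≠ k → Commute (th i j * th k j) (th i k)) ∧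
  (∀ k l m : Fin 3, k ≠ l → k ≠ m → l ≠ m →
    ((th k l : (Module.End K (M K))ˣ) : Module.End K (M K)) (z K m) = z K m)

/-- the expansion of the action -/
def S_exp : Prop := ∀ k l : Fin 3, k ≠ l → ∀ m : M K, ∃ r : M K,
  theta k l (y l) m = m + (2 : K) • D K k l m + (4 : K) • E K k l m + (8 : K) • r

/-! ### Lie rings -/

/-- iterated brackets along a word -/
def adW {L : Type} [LieRing L] (s : Fin 3 → L) (z : L) : List (Fin 3) → L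
  | [] => z
  | l :: w => ⁅s l, adW s z w⁆

/-- the syzygy in a Lie ring with the relations of the McCool group, where the relations between
`c 0 1`, `c 1 0` and `ζ 0 + ζ 1` hold modulo `Z` only -/
def S_kappa : Prop := ∀ (L : Type) [LieRing L] (c : Fin 3 → Fin 3 → L) (ζ : Fin 2 → L)
  (Z : AddSubgroup L),
  (∀ k m j : Fin 3, k ≠ m → k ≠ j → m ≠ j → ⁅c k j, c m j⁆ = 0) →
  (∀ i j k : Fin 3, i ≠ j → i ≠ k → j ≠ k → ⁅c i j + c k j, c i k⁆ = 0) →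
  (∀ (k l : Fin 3) (m : Fin 2), k ≠ l → k ≠ m.castSucc → l ≠ m.castSucc → ⁅c k l, ζ m⁆ = 0) →
  ⁅c 0 1, ζ 0 + ζ 1⁆ ∈ Z → ⁅c 1 0, ζ 0 + ζ 1⁆ ∈ Z →
  (∀ k l : Fin 3, k ≠ l → ∀ a ∈ Z, ⁅c k l, a⁆ ∈ Z) →
  (∀ m : Fin 2, ∀ a ∈ Z, ⁅ζ m, a⁆ = 0) →
  (u0.map fun p => p.1 • adW (fun l => c (sk l) l) ⁅ζ 0, ζ 1⁆ p.2).sum = 0

/-- iterated commutators along a word -/
def comW {P : Type} [Group P] (s : Fin 3 → P) (z : P) : List (Fin 3) → P
  | [] => z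
  | l :: w => ⁅s l, comW s z w⁆

/-- the product of iterated commutators -/
def W0 {P : Type} [Group P] (s : Fin 3 → P) (z : P) : P :=
  (u0.map fun p => comW s z p.2 ^ p.1).prod

/-- the product of iterated commutators lies in `Γ_9` -/
def S_grp : Prop := ∀ (P : Type) [Group P] (s : Fin 3 → Fin 3 → P) (ζ : Fin 2 → P)
  (N : Subgroup P),
  (∀ k m j : Fin 3, k ≠ m → k ≠ j → m ≠ j → ⁅s k j, s m j⁆ = 1) →
  (∀ i j k : Fin 3, i ≠ j → i ≠ k → j ≠ k → ⁅s i j * s k j, s i k⁆ = 1) →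
  (∀ (k l : Fin 3) (m : Fin 2), k ≠ l → k ≠ m.castSucc → l ≠ m.castSucc → ⁅s k l, ζ m⁆ = 1) →
  ⁅s 0 1, ζ 0 * ζ 1⁆ ∈ N → ⁅s 1 0, ζ 0 * ζ 1⁆ ∈ N →
  (∀ k l : Fin 3, k ≠ l → ∀ a ∈ N, ⁅s k l, a⁆ ∈ N) →
  (∀ m : Fin 2, ∀ a ∈ N, ⁅ζ m, a⁆ = 1) →
  W0 (fun l => s (sk l) l) ⁅ζ 0, ζ 1⁆ ∈ gam P 9

/-- The relations of McCool in degree two: for elements `Φ i j` of a Lie ring which satisfy them
there are additive maps from `E_0^1(PΣ_n)` and `E_0^2(PΣ_n)` compatible with the brackets -/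
def S_phi : Prop := ∀ (n : ℕ) (N : Type) [LieRing N] (Φ : Fin n → Fin n → N),
  (∀ i j k : Fin n, i ≠ j → i ≠ k → j ≠ k → ⁅Φ i j, Φ k j⁆ = 0) →
  (∀ i j k l : Fin n, i ≠ j → i ≠ k → i ≠ l → j ≠ k → j ≠ l → k ≠ l → ⁅Φ i j, Φ k l⁆ = 0) →
  (∀ i j k : Fin n, i ≠ j → i ≠ k → j ≠ k → ⁅Φ i j + Φ k j, Φ i k⁆ = 0) →
  ∃ (φ₁ : Gr (PSig n) 1 →+ N) (φ₂ : Gr (PSig n) 2 →+ N),
    (∀ a b : Gr (PSig n) 1, φ₂ (gbr a b) = ⁅φ₁ a, φ₁ b⁆) ∧
    (∀ (i j : Fin n) (h : i ≠ j), φ₁ (cl 1 (chi i j h) (Subgroup.mem_top _)) = Φ i j)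

/-- From the relations for three indices to the relations of McCool for `n ≥ 4` indices -/
def S_Phi : Prop := ∀ (n : ℕ) (hn : 4 ≤ n) (N : Type) [LieRing N] (c : Fin 3 → Fin 3 → N)
  (ζ : Fin 3 → N),
  (∀ k m j : Fin 3, k ≠ m → k ≠ j → m ≠ j → ⁅c k j, c m j⁆ = 0) →
  (∀ i j k : Fin 3, i ≠ j → i ≠ k → j ≠ k → ⁅c i j + c k j, c i k⁆ = 0) →
  (∀ k l m : Fin 3, k ≠ l → k ≠ m → l ≠ m → ⁅c k l, ζ m⁆ = 0) →
  ⁅ζ 0, ζ 1⁆ = 0 → ζ 0 + ζ 1 + ζ 2 = 0 →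
  ∃ Φ : Fin n → Fin n → N,
    (∀ i j k : Fin n, i ≠ j → i ≠ k → j ≠ k → ⁅Φ i j, Φ k j⁆ = 0) ∧
    (∀ i j k l : Fin n, i ≠ j → i ≠ k → i ≠ l → j ≠ k → j ≠ l → k ≠ l → ⁅Φ i j, Φ k l⁆ = 0) ∧
    (∀ i j k : Fin n, i ≠ j → i ≠ k → j ≠ k → ⁅Φ i j + Φ k j, Φ i k⁆ = 0) ∧
    (∀ k l : Fin 3, k ≠ l → Φ (Fin.castLE hn k.castSucc) (Fin.castLE hn l.castSucc) = c k l) ∧
    (∀ k : Fin 3, Φ (Fin.castLE hn k.castSucc) (Fin.castLE hn (Fin.last 3)) = ζ k)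

/-! ### Operators modulo two -/

/-- the operator `t` on `V` induces `ν` modulo `2` -/
def cong {V V' : Type} [AddCommGroup V] [Module K V] [AddCommGroup V'] (q : V →+ V')
    (t : Module.End K V) (ν : AddMonoid.End V') : Prop :=
  ∀ v, ∃ w : V', q (t v) = ν (q v) + 2 • w

/-- Elements of `Γ_k(P)` act as `1 + 2 ^ k t`, and `t` modulo `2` is given by an element of the free
Lie ring. Here `P` is a subgroup of the product of the group of automorphisms of `V` and of `G`. -/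
def S_claim : Prop := ∀ (V V' : Type) [AddCommGroup V] [Module K V] [AddCommGroup V']
  (q : V →+ V') (G : Type) [Group G]
  (h : LV (Gr G 1) →ₗ⁅ℤ⁆ Pool.Agent.H297.QL.E G) (t : Gr G 1 →+ Gr G 1),
  Function.Surjective t → (∀ v, h (inc v) = comp 1 (t v)) →
  ∀ (φ : Gr G 1 →+ AddMonoid.End V') (P : Subgroup ((Module.End K V)ˣ × G)),
  (∀ p ∈ P, ∃ a : Module.End K V, ((p.1 : (Module.End K V)ˣ) : Module.End K V) = 1 + (2 : K) • a ∧
    cong q a (φ (cl 1 p.2 (Subgroup.mem_top _)))) →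
  ∀ k : ℕ, 1 ≤ k → ∀ p ∈ gam P k, ∃ (x : LV (Gr G 1)) (a : Module.End K V)
    (hp : (p : (Module.End K V)ˣ × G).2 ∈ gam G k),
    h x = comp k (cl k (p : (Module.End K V)ˣ × G).2 hp) ∧
    (((p : (Module.End K V)ˣ × G).1 : (Module.End K V)ˣ) : Module.End K V) =
      1 + ((2 : K) ^ k) • a ∧
    cong q a (lift (φ.comp t) x)

end Pool.Agent.H927.QP
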