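import Pool.Agent.H927.QP.Expa
import Pool.Agent.H927.QP.Rel

/-!
# The target Lie ring, and the congruence subgroup
-/

set_option autoImplicit false

open scoped TensorProduct commutatorElement

noncomputable section

namespace Pool.Agent.H927.QP

open Pool.Agent.H297.QL (Gr gam cl gbr comp hc LV inc lift cl_add)

attribute [local instance 100] LieRing.ofAssociativeRing

/-- the target module -/
def V' : Type := K × M K × ZMod 2

instance instGroupV' : AddCommGroup V' := inferInstanceAs (AddCommGroup (K × M K × ZMod 2))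

/-- reduction modulo two -/
def red : K →+* ZMod 2 := ZMod.castHom (by norm_num : 2 ∣ 1024) (ZMod 2)

lemma red_two (c : K) : red (2 * c) = 0 := by
  rw [map_mul]
  have : red 2 = 0 := by decide
  rw [this, zero_mul]

/-- the projection -/
def qq : V →+ V' where
  toFun v := (v.1, v.2.1, red (fT K v.2.2))
  map_zero' := by
    change ((0 : K), (0 : M K), red (fT K 0)) = (0, 0, 0)
    rw [map_zero, map_zero]
  map_add' v w := by
    change (v.1 + w.1, v.2.1 + w.2.1, red (fT K (v.2.2 + w.2.2))) =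
      (v.1 + w.1, v.2.1 + w.2.1, red (fT K v.2.2) + red (fT K w.2.2))
    rw [map_add, map_add]

/-- the first order operators on the target -/
def cc (k l : Fin 3) : AddMonoid.End V' where
  toFun v := (0, D K k l v.2.1, 0)
  map_zero' := by
    change ((0 : K), D K k l 0, (0 : ZMod 2)) = (0, 0, 0)
    rw [map_zero]
  map_add' v w := by
    change ((0 : K), D K k l (v.2.1 + w.2.1), (0 : ZMod 2)) =
      (0 + 0, D K k l v.2.1 + D K k l w.2.1, 0 + 0)
    rw [map_add, add_zero, add_zero]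

/-- multiplication by an element of `M` on the target -/
def zt (m : M K) : AddMonoid.End V' where
  toFun v := (0, v.1 • m, red (pr K m v.2.1))
  map_zero' := by
    change ((0 : K), (0 : K) • m, red (pr K m 0)) = (0, 0, 0)
    rw [zero_smul, map_zero, map_zero]
  map_add' v w := by
    change ((0 : K), (v.1 + w.1) • m, red (pr K m (v.2.1 + w.2.1))) =
      (0 + 0, v.1 • m + w.1 • m, red (pr K m v.2.1) + red (pr K m w.2.1))
    rw [add_smul, map_add, map_add, add_zero]

lemma zt_add (m m' : M K) : zt (m + m') = zt m + zt m' := by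
  refine AddMonoidHom.ext fun v => ?_
  change ((0 : K), v.1 • (m + m'), red (pr K (m + m') v.2.1)) =
    (0 + 0, v.1 • m + v.1 • m', red (pr K m v.2.1) + red (pr K m' v.2.1))
  rw [smul_add, map_add, LinearMap.add_apply, map_add, add_zero]

lemma zt_zero : zt 0 = 0 := by
  refine AddMonoidHom.ext fun v => ?_
  change ((0 : K), v.1 • (0 : M K), red (pr K 0 v.2.1)) = (0, 0, 0)
  rw [smul_zero, map_zero, LinearMap.zero_apply, map_zero]

lemma cc_rel1 (h : S_Drel) (k m j : Fin 3) (h1 : k ≠ m) (h2 : k ≠ j) (h3 : m ≠ j) :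
    ⁅cc k j, cc m j⁆ = 0 := by
  rw [Ring.lie_def, sub_eq_zero]
  refine AddMonoidHom.ext fun v => ?_
  change ((0 : K), D K k j (D K m j v.2.1), (0 : ZMod 2)) = (0, D K m j (D K k j v.2.1), 0)
  have := LinearMap.congr_fun (h.1 k m j h1 h2 h3) v.2.1
  rw [LinearMap.comp_apply, LinearMap.comp_apply] at this
  rw [this]

lemma cc_rel2 (h : S_Drel) (i j k : Fin 3) (h1 : i ≠ j) (h2 : i ≠ k) (h3 : j ≠ k) :
    ⁅cc i j + cc k j, cc i k⁆ = 0 := by
  rw [Ring.lie_def, sub_eq_zero]
  refine AddMonoidHom.ext fun v => ?_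
  change ((0 : K) + 0, D K i j (D K i k v.2.1) + D K k j (D K i k v.2.1), (0 : ZMod 2) + 0) =
    (0, D K i k (D K i j v.2.1 + D K k j v.2.1), 0)
  have := LinearMap.congr_fun (h.2.1 i j k h1 h2 h3) v.2.1
  rw [LinearMap.comp_apply, LinearMap.comp_apply, LinearMap.add_apply, LinearMap.add_apply] at this
  rw [this, add_zero, add_zero]

lemma cc_rel3 (h : S_Drel) (hi : S_inv) (k l m : Fin 3) (h1 : k ≠ l) (h2 : k ≠ m) (h3 : l ≠ m) :
    ⁅cc k l, zt (z K m)⁆ = 0 := by
  rw [Ring.lie_def, sub_eq_zero]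
  refine AddMonoidHom.ext fun v => ?_
  change ((0 : K), D K k l (v.1 • z K m), (0 : ZMod 2)) =
    (0, (0 : K) • z K m, red (pr K (z K m) (D K k l v.2.1)))
  have hz := h.2.2.1 k l m h1 h2 h3
  obtain ⟨c, hc⟩ := hi k l h1 (z K m ⊗ₜ[K] v.2.1)
  have h4 : pr K (z K m) (D K k l v.2.1) = 2 * c := by
    rw [← hc]
    unfold D2 fT
    rw [LinearMap.add_apply, TensorProduct.map_tmul, TensorProduct.map_tmul, hz,
      TensorProduct.zero_tmul, zero_add, TensorProduct.lift.tmul, LinearMap.id_apply]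
  rw [map_smul, hz, smul_zero, zero_smul, h4, red_two]

lemma pr_z (h : S_Drel) : pr K (z K 0) (z K 1) = 0 ∧ pr K (z K 1) (z K 0) = 0 :=
  ⟨h.2.2.2.2 0 1, h.2.2.2.2 1 0⟩

lemma cc_rel4 (h : S_Drel) : ⁅zt (z K 0), zt (z K 1)⁆ = 0 := by
  rw [Ring.lie_def, sub_eq_zero]
  refine AddMonoidHom.ext fun v => ?_
  change ((0 : K), (0 : K) • z K 0, red (pr K (z K 0) (v.1 • z K 1))) =
    (0, (0 : K) • z K 1, red (pr K (z K 1) (v.1 • z K 0)))
  have h1 : pr K (z K 0) (v.1 • z K 1) = 0 := by
    rw [map_smul, (pr_z h).1, smul_zero]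
  have h2 : pr K (z K 1) (v.1 • z K 0) = 0 := by
    rw [map_smul, (pr_z h).2, smul_zero]
  rw [h1, h2, zero_smul, zero_smul]

lemma cc_rel5 (h : S_Drel) : zt (z K 0) + zt (z K 1) + zt (z K 2) = 0 := by
  rw [← zt_add, ← zt_add, h.2.2.2.1, zt_zero]

/-! ### The congruence subgroup -/

section cong

variable {W W' : Type} [AddCommGroup W] [Module K W] [AddCommGroup W'] {q : W →+ W'}

lemma cong_add {a b : Module.End K W} {ν ν' : AddMonoid.End W'} (ha : cong q a ν)
    (hb : cong q b ν') : cong q (a + b) (ν + ν') := by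
  intro v
  obtain ⟨w, hw⟩ := ha v
  obtain ⟨w', hw'⟩ := hb v
  refine ⟨w + w', ?_⟩
  have h : (ν + ν') (q v) = ν (q v) + ν' (q v) := rfl
  rw [LinearMap.add_apply, map_add, hw, hw', h, smul_add]
  abel

lemma q_two (v : W) : q ((2 : K) • v) = 2 • q v := by
  rw [two_smul, map_add, two_nsmul]

lemma cong_two (b : Module.End K W) {a : Module.End K W} {ν : AddMonoid.End W'}
    (ha : cong q a ν) : cong q (a + (2 : K) • b) ν := by
  intro v
  obtain ⟨w, hw⟩ := ha v
  refine ⟨w + q (b v), ?_⟩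
  rw [LinearMap.add_apply, map_add, hw, LinearMap.smul_apply, q_two, smul_add]
  abel

lemma cong_neg {a : Module.End K W} {ν : AddMonoid.End W'}
    (ha : cong q a ν) : cong q (-a) (-ν) := by
  intro v
  obtain ⟨w, hw⟩ := ha v
  refine ⟨-w, ?_⟩
  have h : (-ν) (q v) = -(ν (q v)) := rfl
  rw [LinearMap.neg_apply, map_neg, hw, h, smul_neg]
  abel

lemma cong_inv {a : Module.End K W} {ν : AddMonoid.End W'} (A : (Module.End K W)ˣ)
    (hA : (A : Module.End K W) = 1 + (2 : K) • a) (ha : cong q a ν) :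
    cong q (a * ((A⁻¹ : (Module.End K W)ˣ) : Module.End K W)) ν := by
  have h1 : ((A⁻¹ : (Module.End K W)ˣ) : Module.End K W) +
      (2 : K) • (a * ((A⁻¹ : (Module.End K W)ˣ) : Module.End K W)) = 1 := by
    have h2 := A.mul_inv
    rw [hA, add_mul, one_mul, smul_mul_assoc] at h2
    exact h2
  have h3 : a * ((A⁻¹ : (Module.End K W)ˣ) : Module.End K W) =
      a + (2 : K) • (-(a * (a * ((A⁻¹ : (Module.End K W)ˣ) : Module.End K W)))) := by
    have h4 : ((A⁻¹ : (Module.End K W)ˣ) : Module.End K W) = 1 -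
      (2 : K) • (a * ((A⁻¹ : (Module.End K W)ˣ) : Module.End K W)) := eq_sub_of_add_eq h1
    conv_lhs => rw [h4]
    rw [mul_sub, mul_one, mul_smul_comm, smul_neg, sub_eq_add_neg]
  rw [h3]
  exact cong_two _ ha

end cong

/-- the congruence subgroup -/
def PP {n : ℕ} (φ : Gr (PSig n) 1 →+ AddMonoid.End V') :
    Subgroup ((Module.End K V)ˣ × PSig n) where
  carrier := {p | ∃ a : Module.End K V,
    ((p.1 : (Module.End K V)ˣ) : Module.End K V) = 1 + (2 : K) • a ∧
    cong qq a (φ (cl 1 p.2 (Subgroup.mem_top _)))}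
  one_mem' := by
    refine ⟨0, ?_, ?_⟩
    · rw [smul_zero, add_zero]
      rfl
    · have h : cl 1 ((1 : (Module.End K V)ˣ × PSig n)).2 (Subgroup.mem_top _) =
        (0 : Gr (PSig n) 1) := rfl
      rw [h, map_zero]
      intro v
      refine ⟨0, ?_⟩
      have h : (0 : AddMonoid.End V') (qq v) = 0 := rfl
      rw [LinearMap.zero_apply, map_zero, h, smul_zero, add_zero]
  mul_mem' := by
    rintro p p' ⟨a, h1, h2⟩ ⟨a', h1', h2'⟩
    refine ⟨a + a' + (2 : K) • (a * a'), ?_, ?_⟩
    · change (p.1 : Module.End K V) * (p'.1 : Module.End K V) = _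
      rw [h1, h1']
      simp only [add_mul, mul_add, one_mul, mul_one, smul_mul_assoc, mul_smul_comm, smul_add]
      abel
    · have h : cl 1 (p * p').2 (Subgroup.mem_top _) =
        cl 1 p.2 (Subgroup.mem_top _) + cl 1 p'.2 (Subgroup.mem_top _) := rfl
      rw [h, map_add]
      exact cong_two _ (cong_add h2 h2')
  inv_mem' := by
    rintro p ⟨a, h1, h2⟩
    refine ⟨-(a * ((p.1⁻¹ : (Module.End K V)ˣ) : Module.End K V)), ?_, ?_⟩
    · change ((p.1⁻¹ : (Module.End K V)ˣ) : Module.End K V) = _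
      have h3 := p.1.mul_inv
      rw [h1, add_mul, one_mul, smul_mul_assoc] at h3
      rw [smul_neg, ← sub_eq_add_neg]
      exact eq_sub_of_add_eq h3
    · have h : cl 1 (p⁻¹).2 (Subgroup.mem_top _) = -cl 1 p.2 (Subgroup.mem_top _) := rfl
      rw [h, map_neg]
      exact cong_neg (cong_inv p.1 h1 h2)

end Pool.Agent.H927.QP
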