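import Pool.Agent.H927.QP.St

/-!
# Computations in the automorphism group of `V = K ⊕ M ⊕ M ⊗ M`
-/

set_option autoImplicit false

open scoped TensorProduct commutatorElement

noncomputable section

namespace Pool.Agent.H927.QP

lemma rho_lm (θ : Module.End K (M K)) (m : M K) : rho θ * lm m = lm (θ m) * rho θ := by
  refine LinearMap.ext fun v => ?_
  change ((0 : K), θ (v.1 • m), TensorProduct.map θ θ (m ⊗ₜ[K] v.2.1)) =
    (0, v.1 • θ m, θ m ⊗ₜ[K] θ v.2.1)
  rw [map_smul, TensorProduct.map_tmul]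

lemma rho_lt (θ : Module.End K (M K)) (τ : T K) :
    rho θ * lt τ = lt (TensorProduct.map θ θ τ) * rho θ := by
  refine LinearMap.ext fun v => ?_
  change ((0 : K), θ 0, TensorProduct.map θ θ (v.1 • τ)) =
    (0, 0, v.1 • TensorProduct.map θ θ τ)
  rw [map_smul, map_zero]

lemma lm_add (m m' : M K) : lm (m + m') = lm m + lm m' := by
  refine LinearMap.ext fun v => ?_
  change ((0 : K), v.1 • (m + m'), (m + m') ⊗ₜ[K] v.2.1) =
    (0 + 0, v.1 • m + v.1 • m', m ⊗ₜ[K] v.2.1 + m' ⊗ₜ[K] v.2.1)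
  rw [smul_add, TensorProduct.add_tmul, add_zero]

lemma lm_smul (r : K) (m : M K) : lm (r • m) = r • lm m := by
  refine LinearMap.ext fun v => ?_
  change ((0 : K), v.1 • r • m, (r • m) ⊗ₜ[K] v.2.1) =
    (r • 0, r • v.1 • m, r • (m ⊗ₜ[K] v.2.1))
  rw [smul_comm, TensorProduct.smul_tmul', smul_zero]

lemma lt_zero : lt 0 = 0 := by
  refine LinearMap.ext fun v => ?_
  change ((0 : K), (0 : M K), v.1 • (0 : T K)) = 0
  rw [smul_zero]
  rfl

/-- the unit of `End V` given by a unit of `End M` -/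
def ru : (Module.End K (M K))ˣ →* (Module.End K V)ˣ := Units.map rho

lemma ru_em (θ : (Module.End K (M K))ˣ) (m : M K) :
    ru θ * em m = em ((θ : Module.End K (M K)) m) * ru θ := by
  apply Units.ext
  change rho (θ : Module.End K (M K)) * (1 + lm m) =
    (1 + lm ((θ : Module.End K (M K)) m)) * rho (θ : Module.End K (M K))
  rw [mul_add, rho_lm, add_mul, mul_one, one_mul]

lemma ru_ut (θ : (Module.End K (M K))ˣ) (τ : T K) :
    ru θ * ut τ = ut (TensorProduct.map (θ : Module.End K (M K)) (θ : Module.End K (M K)) τ)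
      * ru θ := by
  apply Units.ext
  change rho (θ : Module.End K (M K)) * (1 + lt τ) =
    (1 + lt (TensorProduct.map (θ : Module.End K (M K)) (θ : Module.End K (M K)) τ)) *
      rho (θ : Module.End K (M K))
  rw [mul_add, rho_lt, add_mul, mul_one, one_mul]

lemma ut_add (τ τ' : T K) : ut (τ + τ') = ut τ * ut τ' := by
  apply Units.ext
  change 1 + lt (τ + τ') = (1 + lt τ) * (1 + lt τ')
  simp only [lt_add, mul_add, add_mul, mul_one, lt_mul_lt, one_mul]
  abel

lemma ut_zero : ut 0 = 1 := by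
  apply Units.ext
  change 1 + lt 0 = 1
  rw [lt_zero, add_zero]

/-- `ut` as a homomorphism -/
def utH : Multiplicative (T K) →* (Module.End K V)ˣ where
  toFun a := ut (Multiplicative.toAdd a)
  map_one' := ut_zero
  map_mul' _ _ := ut_add _ _

lemma ut_zsmul (τ : T K) (n : ℤ) : ut (n • τ) = ut τ ^ n := by
  have h := map_zpow utH (Multiplicative.ofAdd τ) n
  rw [← ofAdd_zsmul] at h
  exact h

lemma ut_neg (τ : T K) : ut (-τ) = (ut τ)⁻¹ := by
  have h := map_inv utH (Multiplicative.ofAdd τ)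
  rw [← ofAdd_neg] at h
  exact h

lemma ut_sub (τ τ' : T K) : ut (τ - τ') = ut τ * (ut τ')⁻¹ := by
  rw [sub_eq_add_neg, ut_add, ut_neg]

lemma em_ut (m : M K) (τ : T K) : em m * ut τ = ut τ * em m := by
  apply Units.ext
  change (1 + lm m) * (1 + lt τ) = (1 + lt τ) * (1 + lm m)
  simp only [mul_add, add_mul, lm_mul_lt, lt_mul_lm, mul_one, one_mul]
  abel

lemma em_em (m m' : M K) : em m * em m' = ut (m ⊗ₜ[K] m') * em (m + m') := by
  apply Units.ext
  change (1 + lm m) * (1 + lm m') = (1 + lt (m ⊗ₜ[K] m')) * (1 + lm (m + m'))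
  simp only [mul_add, add_mul, lm_mul_lm, lt_mul_lm, mul_one, one_mul, lm_add]
  abel

lemma comm_em (m m' : M K) : ⁅em m, em m'⁆ = ut (m ⊗ₜ[K] m' - m' ⊗ₜ[K] m) := by
  have h : ⁅em m, em m'⁆ = (em m * em m') * (em m' * em m)⁻¹ := by
    rw [commutatorElement_def]
    group
  rw [h, em_em, em_em, add_comm m' m, ut_sub]
  group

lemma comm_ru_ut (θ : (Module.End K (M K))ˣ) (τ : T K) :
    ⁅ru θ, ut τ⁆ = ut (TensorProduct.map (θ : Module.End K (M K)) (θ : Module.End K (M K)) τ
      - τ) := by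
  rw [commutatorElement_def, ru_ut, ut_sub]
  group

lemma comm_em_ut (m : M K) (τ : T K) : ⁅em m, ut τ⁆ = 1 := by
  rw [commutatorElement_def, em_ut]
  group

lemma comm_ru_em (θ : (Module.End K (M K))ˣ) (m : M K)
    (h : (θ : Module.End K (M K)) m = m) : ⁅ru θ, em m⁆ = 1 := by
  rw [commutatorElement_def, ru_em, h]
  group

lemma comm_ru_em2 (θ : (Module.End K (M K))ˣ) (m m' : M K)
    (h : (θ : Module.End K (M K)) m + (θ : Module.End K (M K)) m' = m + m') :
    ∃ τ, ⁅ru θ, em m * em m'⁆ = ut τ := by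
  refine ⟨(θ : Module.End K (M K)) m ⊗ₜ[K] (θ : Module.End K (M K)) m' - m ⊗ₜ[K] m', ?_⟩
  have h1 : ru θ * (em m * em m') =
      em ((θ : Module.End K (M K)) m) * em ((θ : Module.End K (M K)) m') * ru θ := by
    rw [← mul_assoc, ru_em, mul_assoc, ru_em, mul_assoc]
  rw [commutatorElement_def, h1, em_em, em_em, h, ut_sub]
  group

/-- the value on the vector `(1, 0, 0)` -/
lemma ut_one_vec (τ : T K) :
    ((ut τ : (Module.End K V)ˣ) : Module.End K V) ((1 : K), (0 : M K), (0 : T K)) =
      ((1 : K), (0 : M K), τ) := by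
  change ((1 : K) + 0, (0 : M K) + 0, (0 : T K) + (1 : K) • τ) = (1, 0, τ)
  rw [one_smul, add_zero, add_zero, zero_add]

/-- the vectors obtained along a word -/
def tw (θ : Fin 3 → Module.End K (M K)) (τ : T K) : List (Fin 3) → T K
  | [] => τ
  | l :: w => TensorProduct.map (θ l) (θ l) (tw θ τ w) - tw θ τ w

lemma comW_ut (θ : Fin 3 → (Module.End K (M K))ˣ) (τ : T K) (w : List (Fin 3)) :
    comW (fun l => ru (θ l)) (ut τ) w = ut (tw (fun l => (θ l : Module.End K (M K))) τ w) := by
  induction w with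
  | nil => rfl
  | cons l w ih =>
    change ⁅ru (θ l), comW (fun l => ru (θ l)) (ut τ) w⁆ = _
    rw [ih, comm_ru_ut]
    rfl

lemma prod_ut (f : List (Fin 3) → T K) (L : List (ℤ × List (Fin 3))) :
    (L.map fun p => ut (f p.2) ^ p.1).prod = ut ((L.map fun p => p.1 • f p.2).sum) := by
  induction L with
  | nil => exact ut_zero.symm
  | cons p L ih =>
    rw [List.map_cons, List.prod_cons, ih, List.map_cons, List.sum_cons, ut_add, ut_zsmul]

lemma prod_congr_W {P : Type} [Group P] {f g : ℤ × List (Fin 3) → P} (_ : P)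
    (h : ∀ p, f p = g p) (L : List (ℤ × List (Fin 3))) : (L.map f).prod = (L.map g).prod := by
  rw [funext h]

lemma W0_ut (θ : Fin 3 → (Module.End K (M K))ˣ) (τ : T K) :
    W0 (fun l => ru (θ l)) (ut τ) =
      ut ((u0.map fun p => p.1 • tw (fun l => (θ l : Module.End K (M K))) τ p.2).sum) := by
  rw [← prod_ut]
  exact prod_congr_W 1 (fun p => by rw [comW_ut]) u0

lemma comW_one {P : Type} [Group P] (s : Fin 3 → P) (w : List (Fin 3)) : comW s 1 w = 1 := by
  induction w with
  | nil => rfl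
  | cons l w ih =>
    change ⁅s l, comW s 1 w⁆ = 1
    rw [ih, commutatorElement_one_right]

lemma W0_one {P : Type} [Group P] (s : Fin 3 → P) : W0 s 1 = 1 := by
  unfold W0
  have h : ∀ L : List (ℤ × List (Fin 3)), (L.map fun p => comW s 1 p.2 ^ p.1).prod = 1 := by
    intro L
    induction L with
    | nil => rfl
    | cons p L ih => rw [List.map_cons, List.prod_cons, ih, comW_one, one_zpow, one_mul]
  exact h u0

lemma map_comW {P Q : Type} [Group P] [Group Q] (f : P →* Q) (s : Fin 3 → P) (z : P)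
    (w : List (Fin 3)) : f (comW s z w) = comW (fun l => f (s l)) (f z) w := by
  induction w with
  | nil => rfl
  | cons l w ih =>
    change f ⁅s l, comW s z w⁆ = _
    rw [map_commutatorElement, ih]
    rfl

lemma map_W0 {P Q : Type} [Group P] [Group Q] (f : P →* Q) (s : Fin 3 → P) (z : P) :
    f (W0 s z) = W0 (fun l => f (s l)) (f z) := by
  unfold W0
  rw [map_list_prod, List.map_map]
  refine prod_congr_W 1 (fun p => ?_) u0
  change f (comW s z p.2 ^ p.1) = _
  rw [map_zpow, map_comW]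

end Pool.Agent.H927.QP
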